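import Pool.Agent.H608R3.GBC.Geo

set_option autoImplicit false
set_option maxHeartbeats 4000000

open MeasureTheory Filter
open scoped Topology ContDiff Kronecker Nat

noncomputable section

namespace Pool.Agent.H608R3.GBC

theorem abs_coord_le (x : Pt 8) (i : Fin 8) : |x i| ≤ ‖x‖ := by
  apply abs_le_of_sq_le_sq _ (norm_nonneg x)
  rw [norm_sq_nsq]
  exact Finset.single_le_sum (f := fun i => x i ^ 2) (fun j _ => sq_nonneg (x j))
    (Finset.mem_univ i)

theorem abs_xi_le (x : Pt 8) (i : Fin 8) : |xi i x| ≤ ‖x‖ := by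
  apply abs_le_of_sq_le_sq _ (norm_nonneg x)
  rw [norm_sq_nsq, ← sum_xi_sq]
  exact Finset.single_le_sum (f := fun i => xi i x ^ 2) (fun j _ => sq_nonneg (xi j x))
    (Finset.mem_univ i)

theorem abs_J_le (i j : Fin 8) : |J i j| ≤ 1 := by
  have h : ∀ i j : Fin 8, |jz i j| ≤ 1 := by decide
  have h2 := h i j
  unfold J
  exact_mod_cast h2

theorem F0_le {r : ℝ} (hr : 1 ≤ r) : |F0 (r ^ 2)| ≤ 10 / r ^ 4 := by
  have h0 : 0 < r := by linarith
  rw [abs_of_pos (F0_pos _)]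
  unfold F0
  apply div_le_div_of_nonneg_left (by norm_num) (by positivity)
  nlinarith

theorem F1_le {r : ℝ} (hr : 1 ≤ r) : |F1 (r ^ 2)| ≤ 20 / r ^ 6 := by
  have h0 : 0 < r := by linarith
  unfold F1
  rw [neg_div, abs_neg, abs_of_nonneg (by positivity)]
  rw [div_le_div_iff₀ (by positivity) (by positivity)]
  have h : r ^ 8 ≤ (1 + (r ^ 2) ^ 2) ^ 2 := by nlinarith [pow_pos h0 4]
  nlinarith

theorem F2_le {r : ℝ} (hr : 1 ≤ r) : |F2 (r ^ 2)| ≤ 100 / r ^ 8 := by
  have h0 : 0 < r := by linarith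
  unfold F2
  refine (abs_add_le _ _).trans ?_
  have h1 : |(-20) / (1 + (r ^ 2) ^ 2) ^ 2| ≤ 20 / r ^ 8 := by
    rw [neg_div, abs_neg, abs_of_nonneg (by positivity)]
    apply div_le_div_of_nonneg_left (by norm_num) (by positivity)
    nlinarith [pow_pos h0 4]
  have h2 : |80 * (r ^ 2) ^ 2 / (1 + (r ^ 2) ^ 2) ^ 3| ≤ 80 / r ^ 8 := by
    rw [abs_of_nonneg (by positivity)]
    rw [div_le_div_iff₀ (by positivity) (by positivity)]
    have h3 : r ^ 12 ≤ (1 + (r ^ 2) ^ 2) ^ 3 := by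
      have : r ^ 12 = ((r ^ 2) ^ 2) ^ 3 := by ring
      rw [this]
      gcongr
      linarith
    nlinarith
  calc _ ≤ 20 / r ^ 8 + 80 / r ^ 8 := add_le_add h1 h2
    _ = 100 / r ^ 8 := by ring

theorem decay_g8 (x : Pt 8) (hx : 1 ≤ ‖x‖) (i j k l : Fin 8) :
    |g8 x i j - if i = j then 1 else 0| ≤ 1000 * (1 / ‖x‖ ^ 2) ∧
    |pd k (fun y => g8 y i j) x| ≤ 1000 * (1 / ‖x‖ ^ 3) ∧
    |pd l (pd k (fun y => g8 y i j)) x| ≤ 1000 * (1 / ‖x‖ ^ 4) := by
  set r := ‖x‖ with hr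
  have h0 : 0 < r := by linarith
  have hn : nsq x = r ^ 2 := (norm_sq_nsq x).symm
  have xk := abs_coord_le x k
  have xl := abs_coord_le x l
  have yi := abs_xi_le x i
  have yj := abs_xi_le x j
  rw [← hr] at xk xl yi yj
  have f0 := F0_le hx
  have f1 := F1_le hx
  have f2 := F2_le hx
  have j1 := abs_J_le i k
  have j2 := abs_J_le j k
  have j3 := abs_J_le i l
  have j4 := abs_J_le j l
  refine ⟨?_, ?_, ?_⟩
  · have h1 : g8 x i j - (if i = j then 1 else 0) = F0 (r ^ 2) * xi i x * xi j x := by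
      simp only [g8, Matrix.of_apply, hn]
      ring
    rw [h1, abs_mul, abs_mul]
    calc |F0 (r ^ 2)| * |xi i x| * |xi j x| ≤ 10 / r ^ 4 * r * r := by gcongr
      _ = 10 * (1 / r ^ 2) := by field_simp
      _ ≤ 1000 * (1 / r ^ 2) := by gcongr; norm_num
  · rw [pd_g, hn]
    have a1 : |2 * x k * F1 (r ^ 2) * xi i x * xi j x| ≤ 40 * (1 / r ^ 3) := by
      rw [abs_mul, abs_mul, abs_mul, abs_mul, abs_two]
      calc 2 * |x k| * |F1 (r ^ 2)| * |xi i x| * |xi j x| ≤ 2 * r * (20 / r ^ 6) * r * r := by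
            gcongr
        _ = 40 * (1 / r ^ 3) := by field_simp; norm_num
    have a2 : |F0 (r ^ 2) * (J i k * xi j x + xi i x * J j k)| ≤ 20 * (1 / r ^ 3) := by
      rw [abs_mul]
      have : |J i k * xi j x + xi i x * J j k| ≤ 2 * r := by
        refine (abs_add_le _ _).trans ?_
        rw [abs_mul, abs_mul]
        nlinarith [abs_nonneg (J i k), abs_nonneg (xi j x), abs_nonneg (J j k),
          abs_nonneg (xi i x)]
      calc |F0 (r ^ 2)| * |J i k * xi j x + xi i x * J j k| ≤ 10 / r ^ 4 * (2 * r) := by gcongr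
        _ = 20 * (1 / r ^ 3) := by field_simp; norm_num
    calc _ ≤ 40 * (1 / r ^ 3) + 20 * (1 / r ^ 3) := (abs_add_le _ _).trans (add_le_add a1 a2)
      _ = 60 * (1 / r ^ 3) := by ring
      _ ≤ 1000 * (1 / r ^ 3) := by gcongr; norm_num
  · rw [pd_pd_g, hn]
    have a0 : |2 * (if k = l then (1 : ℝ) else 0) * F1 (r ^ 2) * xi i x * xi j x| ≤
        40 * (1 / r ^ 4) := by
      rw [abs_mul, abs_mul, abs_mul, abs_mul, abs_two]
      have hd : |(if k = l then (1 : ℝ) else 0)| ≤ 1 := by split_ifs <;> simp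
      calc 2 * |(if k = l then (1 : ℝ) else 0)| * |F1 (r ^ 2)| * |xi i x| * |xi j x|
          ≤ 2 * 1 * (20 / r ^ 6) * r * r := by gcongr
        _ = 40 * (1 / r ^ 4) := by field_simp; norm_num
    have a1 : |4 * x k * x l * F2 (r ^ 2) * xi i x * xi j x| ≤ 400 * (1 / r ^ 4) := by
      rw [abs_mul, abs_mul, abs_mul, abs_mul, abs_mul]
      have : |(4 : ℝ)| = 4 := by norm_num
      rw [this]
      calc 4 * |x k| * |x l| * |F2 (r ^ 2)| * |xi i x| * |xi j x|
          ≤ 4 * r * r * (100 / r ^ 8) * r * r := by gcongr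
        _ = 400 * (1 / r ^ 4) := by field_simp; norm_num
    have b1 : |J i l * xi j x + xi i x * J j l| ≤ 2 * r := by
      refine (abs_add_le _ _).trans ?_
      rw [abs_mul, abs_mul]
      nlinarith [abs_nonneg (J i l), abs_nonneg (xi j x), abs_nonneg (J j l),
        abs_nonneg (xi i x)]
    have b2 : |J i k * xi j x + xi i x * J j k| ≤ 2 * r := by
      refine (abs_add_le _ _).trans ?_
      rw [abs_mul, abs_mul]
      nlinarith [abs_nonneg (J i k), abs_nonneg (xi j x), abs_nonneg (J j k),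
        abs_nonneg (xi i x)]
    have a2 : |2 * x k * F1 (r ^ 2) * (J i l * xi j x + xi i x * J j l)| ≤ 80 * (1 / r ^ 4) := by
      rw [abs_mul, abs_mul, abs_mul, abs_two]
      calc 2 * |x k| * |F1 (r ^ 2)| * |J i l * xi j x + xi i x * J j l|
          ≤ 2 * r * (20 / r ^ 6) * (2 * r) := by gcongr
        _ = 80 * (1 / r ^ 4) := by field_simp; norm_num
    have a3 : |2 * x l * F1 (r ^ 2) * (J i k * xi j x + xi i x * J j k)| ≤ 80 * (1 / r ^ 4) := by
      rw [abs_mul, abs_mul, abs_mul, abs_two]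
      calc 2 * |x l| * |F1 (r ^ 2)| * |J i k * xi j x + xi i x * J j k|
          ≤ 2 * r * (20 / r ^ 6) * (2 * r) := by gcongr
        _ = 80 * (1 / r ^ 4) := by field_simp; norm_num
    have a4 : |F0 (r ^ 2) * (J i k * J j l + J i l * J j k)| ≤ 20 * (1 / r ^ 4) := by
      rw [abs_mul]
      have : |J i k * J j l + J i l * J j k| ≤ 2 := by
        refine (abs_add_le _ _).trans ?_
        rw [abs_mul, abs_mul]
        nlinarith [abs_nonneg (J i k), abs_nonneg (J j l), abs_nonneg (J j k),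
          abs_nonneg (J i l)]
      calc |F0 (r ^ 2)| * |J i k * J j l + J i l * J j k| ≤ 10 / r ^ 4 * 2 := by gcongr
        _ = 20 * (1 / r ^ 4) := by ring
    have t1 := abs_add_le (2 * (if k = l then (1 : ℝ) else 0) * F1 (r ^ 2) * xi i x * xi j x)
      (4 * x k * x l * F2 (r ^ 2) * xi i x * xi j x)
    have t2 := abs_add_le (2 * (if k = l then (1 : ℝ) else 0) * F1 (r ^ 2) * xi i x * xi j x +
      4 * x k * x l * F2 (r ^ 2) * xi i x * xi j x)
      (2 * x k * F1 (r ^ 2) * (J i l * xi j x + xi i x * J j l))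
    have t3 := abs_add_le (2 * (if k = l then (1 : ℝ) else 0) * F1 (r ^ 2) * xi i x * xi j x +
      4 * x k * x l * F2 (r ^ 2) * xi i x * xi j x +
      2 * x k * F1 (r ^ 2) * (J i l * xi j x + xi i x * J j l))
      (2 * x l * F1 (r ^ 2) * (J i k * xi j x + xi i x * J j k))
    have t4 := abs_add_le (2 * (if k = l then (1 : ℝ) else 0) * F1 (r ^ 2) * xi i x * xi j x +
      4 * x k * x l * F2 (r ^ 2) * xi i x * xi j x +
      2 * x k * F1 (r ^ 2) * (J i l * xi j x + xi i x * J j l) +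
      2 * x l * F1 (r ^ 2) * (J i k * xi j x + xi i x * J j k))
      (F0 (r ^ 2) * (J i k * J j l + J i l * J j k))
    have hpos : 0 < 1 / r ^ 4 := by positivity
    linarith

theorem det_g8 (x : Pt 8) : (g8 x).det = 1 + F0 (nsq x) * nsq x := by
  have h : g8 x = 1 + Matrix.replicateCol Unit (F0 (nsq x) • yv x) *
      Matrix.replicateRow Unit (yv x) := by
    rw [g8_eq]
    congr 1
    ext i j
    simp [Matrix.mul_apply, Matrix.vecMulVec_apply, mul_assoc]
  rw [h, Matrix.det_one_add_replicateCol_mul_replicateRow, dotProduct_smul, y_dot_y]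
  rfl

theorem L2_le (x : Pt 8) : L2 g8 x ≤ 7200 * 86 / (1 + nsq x ^ 2) ^ 3 := by
  rw [L2_value]
  have hs := nsq_nonneg x
  set s := nsq x
  rw [div_le_div_iff₀ (by positivity) (by positivity)]
  have h1 : 10 + 100 * s + 96 * s ^ 2 - 100 * s ^ 3 + 86 * s ^ 4 ≤ 86 * (1 + s ^ 2) ^ 2 := by
    nlinarith [sq_nonneg (s - 1), pow_nonneg hs 3, sq_nonneg s]
  have h2 : (1 + s ^ 2) ^ 2 ≤ (1 + 10 * s + s ^ 2) ^ 2 := by
    gcongr
    linarith
  have h3 : 0 < (1 + s ^ 2) ^ 3 := by positivity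
  calc 7200 * (10 + 100 * s + 96 * s ^ 2 - 100 * s ^ 3 + 86 * s ^ 4) * (1 + s ^ 2) ^ 3
      ≤ 7200 * (86 * (1 + s ^ 2) ^ 2) * (1 + s ^ 2) ^ 3 := by gcongr
    _ ≤ 7200 * (86 * (1 + 10 * s + s ^ 2) ^ 2) * (1 + s ^ 2) ^ 3 := by gcongr
    _ = 7200 * 86 * ((1 + s ^ 2) ^ 3 * (1 + 10 * s + s ^ 2) ^ 2) := by ring

theorem integrable_L2 : Integrable (fun x => L2 g8 x * √(g8 x).det) volume := by
  have hint : Integrable (fun x : Pt 8 => (1 + ‖x‖) ^ (-(12 : ℝ))) volume := by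
    apply integrable_one_add_norm
    simp
    norm_num
  refine (hint.const_mul (7200 * 86 * 512 * 3)).mono' ?_ ?_
  · have h : (fun x => L2 g8 x * √(g8 x).det) = fun x : Pt 8 =>
        7200 * (10 + 100 * nsq x + 96 * nsq x ^ 2 - 100 * nsq x ^ 3 + 86 * nsq x ^ 4) /
      ((1 + nsq x ^ 2) ^ 3 * (1 + 10 * nsq x + nsq x ^ 2) ^ 2) *
        √(1 + F0 (nsq x) * nsq x) := by
      funext x
      rw [L2_value, det_g8]
    rw [h]
    have hc : Continuous nsq := contDiff_nsq.continuous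
    have hF : Continuous (fun x => F0 (nsq x)) := contDiff_F0.continuous.comp hc
    refine Continuous.aestronglyMeasurable ?_
    refine Continuous.mul (Continuous.div (by fun_prop) (by fun_prop) ?_)
      (Real.continuous_sqrt.comp (by fun_prop))
    intro x
    have := nsq_nonneg x
    positivity
  · refine Eventually.of_forall fun x => ?_
    have h1 := L2_le x
    have h2 := (L2_pos x).le
    have h3 : √(g8 x).det ≤ 3 := by
      rw [det_g8, Real.sqrt_le_left (by norm_num)]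
      have := F0_mul_le (nsq x)
      linarith
    rw [Real.norm_eq_abs, abs_of_nonneg (mul_nonneg h2 (Real.sqrt_nonneg _))]
    have hn := norm_nonneg x
    have h4 : 1 / (1 + nsq x ^ 2) ^ 3 ≤ 512 * (1 + ‖x‖) ^ (-(12 : ℝ)) := by
      rw [← norm_sq_nsq]
      set r := ‖x‖
      have e : (1 + r) ^ (-(12 : ℝ)) = 1 / (1 + r) ^ 12 := by
        rw [Real.rpow_neg (by positivity), one_div]
        congr 1
        exact_mod_cast Real.rpow_natCast (1 + r) 12
      rw [e]
      have h5 : (1 + r) ^ 4 ≤ 8 * (1 + (r ^ 2) ^ 2) := by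
        nlinarith [sq_nonneg (r - 1), sq_nonneg (r ^ 2 - 1), sq_nonneg (r ^ 2 - r), hn]
      have h6 : (1 + r) ^ 12 ≤ 512 * (1 + (r ^ 2) ^ 2) ^ 3 := by
        calc (1 + r) ^ 12 = ((1 + r) ^ 4) ^ 3 := by ring
          _ ≤ (8 * (1 + (r ^ 2) ^ 2)) ^ 3 := by gcongr
          _ = 512 * (1 + (r ^ 2) ^ 2) ^ 3 := by ring
      rw [mul_one_div, div_le_div_iff₀ (by positivity) (by positivity)]
      linarith
    calc L2 g8 x * √(g8 x).det ≤ (7200 * 86 / (1 + nsq x ^ 2) ^ 3) * 3 := by gcongr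
      _ = 7200 * 86 * 3 * (1 / (1 + nsq x ^ 2) ^ 3) := by ring
      _ ≤ 7200 * 86 * 3 * (512 * (1 + ‖x‖) ^ (-(12 : ℝ))) := by gcongr
      _ = 7200 * 86 * 512 * 3 * (1 + ‖x‖) ^ (-(12 : ℝ)) := by ring

theorem isAF_g8 : IsAsymptoticallyFlat g8 2 where
  decay := by
    refine ⟨1000, 1, fun x hx i j k l => ?_⟩
    have h0 : 0 < ‖x‖ := by linarith
    have e1 : ‖x‖ ^ (-(2 : ℝ)) = 1 / ‖x‖ ^ 2 := by
      rw [Real.rpow_neg h0.le, one_div]
      congr 1
      exact_mod_cast Real.rpow_natCast ‖x‖ 2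
    have e2 : ‖x‖ ^ (-(2 : ℝ) - 1) = 1 / ‖x‖ ^ 3 := by
      have : (-(2 : ℝ) - 1) = -3 := by norm_num
      rw [this, Real.rpow_neg h0.le, one_div]
      congr 1
      exact_mod_cast Real.rpow_natCast ‖x‖ 3
    have e3 : ‖x‖ ^ (-(2 : ℝ) - 2) = 1 / ‖x‖ ^ 4 := by
      have : (-(2 : ℝ) - 2) = -4 := by norm_num
      rw [this, Real.rpow_neg h0.le, one_div]
      congr 1
      exact_mod_cast Real.rpow_natCast ‖x‖ 4
    rw [e1, e2, e3]
    exact decay_g8 x hx i j k l
  integrable := integrable_L2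

end Pool.Agent.H608R3.GBC
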