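import Pool.Agent.H608R3.GBC.Frame

set_option autoImplicit false
set_option maxHeartbeats 4000000

open MeasureTheory Filter
open scoped Topology ContDiff Kronecker

noncomputable section

namespace Pool.Agent.H608R3.GBC

/-! ### Pulling back four tensors to a frame -/

/-- the components of a bilinear form in the frame given by the columns of `B` -/
def bil (B A : Matrix (Fin 8) (Fin 8) ℝ) (a c : Fin 8) : ℝ := ∑ i, ∑ l, B i a * A i l * B l c

/-- the components of a four tensor in the frame given by the columns of `B` -/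
def pb (B : Matrix (Fin 8) (Fin 8) ℝ) (T : Fin 8 → Fin 8 → Fin 8 → Fin 8 → ℝ)
    (a b c d : Fin 8) : ℝ :=
  ∑ i, ∑ k, ∑ l, ∑ m, B i a * B k b * B l c * B m d * T i k l m

theorem pb_add (B : Matrix (Fin 8) (Fin 8) ℝ) (T T' : Fin 8 → Fin 8 → Fin 8 → Fin 8 → ℝ)
    (a b c d : Fin 8) : pb B (fun i k l m => T i k l m + T' i k l m) a b c d =
      pb B T a b c d + pb B T' a b c d := by
  simp only [pb, mul_add, Finset.sum_add_distrib]

theorem pb_smul (B : Matrix (Fin 8) (Fin 8) ℝ) (r : ℝ)
    (T : Fin 8 → Fin 8 → Fin 8 → Fin 8 → ℝ)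
    (a b c d : Fin 8) : pb B (fun i k l m => r * T i k l m) a b c d = r * pb B T a b c d := by
  simp only [pb, Finset.mul_sum]
  refine Finset.sum_congr rfl fun i _ => Finset.sum_congr rfl fun k _ =>
    Finset.sum_congr rfl fun l _ => Finset.sum_congr rfl fun m _ => by ring

theorem four_a (B A C : Matrix (Fin 8) (Fin 8) ℝ) (a b c d : Fin 8) :
    pb B (fun i k l m => A i l * C k m) a b c d = bil B A a c * bil B C b d := by
  simp only [pb, bil, Finset.sum_mul_sum]
  refine Finset.sum_congr rfl fun i _ => Finset.sum_congr rfl fun k _ =>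
    Finset.sum_congr rfl fun l _ => Finset.sum_congr rfl fun m _ => by ring

theorem four_b (B A C : Matrix (Fin 8) (Fin 8) ℝ) (a b c d : Fin 8) :
    pb B (fun i k l m => A i m * C k l) a b c d = bil B A a d * bil B C b c := by
  have h := four_a B A C a b d c
  rw [← h]
  simp only [pb]
  refine Finset.sum_congr rfl fun i _ => Finset.sum_congr rfl fun k _ => ?_
  rw [Finset.sum_comm]
  refine Finset.sum_congr rfl fun l _ => Finset.sum_congr rfl fun m _ => by ring

theorem four_c (B A C : Matrix (Fin 8) (Fin 8) ℝ) (a b c d : Fin 8) :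
    pb B (fun i k l m => A i k * C l m) a b c d = bil B A a b * bil B C c d := by
  simp only [pb, bil, Finset.sum_mul_sum]
  refine Finset.sum_congr rfl fun i _ => ?_
  rw [Finset.sum_comm]
  refine Finset.sum_congr rfl fun l _ => ?_
  rw [Finset.sum_comm]
  rw [Finset.sum_comm]
  refine Finset.sum_congr rfl fun k _ => Finset.sum_congr rfl fun m _ => by ring

/-- `bil` as a matrix -/
def bilM (B A : Matrix (Fin 8) (Fin 8) ℝ) : Matrix (Fin 8) (Fin 8) ℝ := Matrix.of (bil B A)

theorem pb_KN (B A C : Matrix (Fin 8) (Fin 8) ℝ) (a b c d : Fin 8) :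
    pb B (KN A C) a b c d = KN (bilM B A) (bilM B C) a b c d := by
  have h : (KN A C) = fun i k l m => (((A i l * C k m) + (C i l * A k m)) +
      (-1) * (A i m * C k l)) + (-1) * (C i m * A k l) := by
    funext i k l m
    simp only [KN]
    ring
  rw [h]
  rw [pb_add B (fun i k l m => ((A i l * C k m) + (C i l * A k m)) + (-1) * (A i m * C k l)),
    pb_add B (fun i k l m => (A i l * C k m) + (C i l * A k m)),
    pb_add B (fun i k l m => (A i l * C k m)), pb_smul, pb_smul, four_a, four_a, four_b, four_b]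
  simp only [KN, bilM, Matrix.of_apply]
  ring

theorem pb_WW (B A C : Matrix (Fin 8) (Fin 8) ℝ) (a b c d : Fin 8) :
    pb B (WW A C) a b c d = WW (bilM B A) (bilM B C) a b c d := four_c B A C a b c d

/-! ### The adapted frame -/

/-- the data of an adapted frame at `x`: `B` is `g`-orthonormal -/
structure Adapted (x : Pt 8) (t y : ℝ) (B : Matrix (Fin 8) (Fin 8) ℝ) : Prop where
  t_nonneg : 0 ≤ t
  y_pos : 0 < y
  t_sq : t ^ 2 = nsq x
  y_sq : y ^ 2 = 1 + F0 (nsq x) * nsq x
  inv : (g8 x)⁻¹ = B * B.transpose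
  X : ∀ a, ∑ i, x i * B i a = if a = 0 then t else 0
  Y : ∀ a, ∑ i, xi i x * B i a = if a = 1 then t / y else 0
  D : ∀ a b, bil B Dm a b = (if a = b then 1 else 0) * (if a = 1 then 1 / y else 1) *
    (if b = 1 then 1 / y else 1)
  J : ∀ a b, bil B Jm a b = J a b * (if a = 1 then 1 / y else 1) * (if b = 1 then 1 / y else 1)

theorem exists_B (x : Pt 8) : ∃ t y B, Adapted x t y B := by
  obtain ⟨t, U, ht, hts, hX, hY, hU, hJ⟩ := exists_adapted x
  have hv := vv_pos x
  set y := √(vv x) with hy
  have hy0 : 0 < y := Real.sqrt_pos.2 hv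
  have hy2 : y ^ 2 = vv x := Real.sq_sqrt hv.le
  have hU' : U * U.transpose = 1 := mul_eq_one_comm.1 hU
  have hUij : ∀ a b, ∑ i, U i a * U i b = if a = b then 1 else 0 := by
    intro a b
    have := congrFun (congrFun hU a) b
    rw [Matrix.mul_apply, Matrix.one_apply] at this
    exact this
  have hUJ : ∀ a b, ∑ i, ∑ l, U i a * J i l * U l b = J a b := by
    intro a b
    have := congrFun (congrFun hJ a) b
    rw [Matrix.mul_assoc, Matrix.mul_apply] at this
    simp only [Matrix.transpose_apply, Matrix.mul_apply, Finset.mul_sum, Jm,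
      Matrix.of_apply] at this
    rw [← this]
    refine Finset.sum_congr rfl fun i _ => Finset.sum_congr rfl fun l _ => by ring
  set d : Fin 8 → ℝ := fun a => if a = 1 then 1 / y else 1 with hd
  have hd0 : d 0 = 1 := by simp [hd]
  have hd1 : d 1 = 1 / y := by simp [hd]
  refine ⟨t, y, Matrix.of fun i a => U i a * d a, ?_⟩
  refine ⟨ht, hy0, hts, hy2, ?_, fun a => ?_, fun a => ?_, fun a b => ?_, fun a b => ?_⟩
  · rw [g8_inv]
    ext i j
    have h1 : (Matrix.of fun i a => U i a * d a) * (Matrix.of fun i a => U i a * d a).transpose =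
        Matrix.of fun i j => ∑ a, U i a * d a * (U j a * d a) := by
      ext i j
      rw [Matrix.mul_apply]
      rfl
    rw [h1]
    have h2 : ∀ a, U i a * d a * (U j a * d a) = U i a * U j a +
        if a = 1 then ((1 / y) ^ 2 - 1) * (U i a * U j a) else 0 := by
      intro a
      by_cases ha : a = 1
      · simp only [hd, ha, if_true]
        ring
      · simp only [hd, ha, if_false]
        ring
    have h3 : ∑ a, U i a * U j a = if i = j then 1 else 0 := by
      have := congrFun (congrFun hU' i) j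
      rw [Matrix.mul_apply, Matrix.one_apply] at this
      exact this
    simp only [Matrix.of_apply, h2, Finset.sum_add_distrib, h3, Finset.sum_ite_eq',
      Finset.mem_univ, if_true, Matrix.sub_apply, Matrix.one_apply, Matrix.smul_apply,
      Matrix.vecMulVec_apply, yv, smul_eq_mul]
    rw [hY i, hY j, ← hy2]
    have h4 : y ^ 2 = 1 + F0 (nsq x) * t ^ 2 := by rw [hy2, hts]; rfl
    have h5 : (1 / y) ^ 2 - 1 = - (F0 (nsq x) * t ^ 2) / y ^ 2 := by
      field_simp
      rw [h4]
      ring
    rw [h5]
    ring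
  · simp only [Matrix.of_apply]
    have h : ∀ i, x i * (U i a * d a) = t * d a * (U i 0 * U i a) := by
      intro i
      rw [hX i]
      ring
    simp only [h]
    rw [← Finset.mul_sum, hUij]
    by_cases ha : a = 0
    · subst ha
      simp [hd0]
    · rw [if_neg (fun h => ha h.symm), if_neg ha, mul_zero]
  · simp only [Matrix.of_apply]
    have h : ∀ i, xi i x * (U i a * d a) = t * d a * (U i 1 * U i a) := by
      intro i
      rw [hY i]
      ring
    simp only [h]
    rw [← Finset.mul_sum, hUij]
    by_cases ha : a = 1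
    · subst ha
      rw [if_pos rfl, if_pos rfl, hd1]
      ring
    · rw [if_neg (fun h => ha h.symm), if_neg ha, mul_zero]
  · have h : bil (Matrix.of fun i a => U i a * d a) Dm a b = d a * d b * ∑ i, U i a * U i b := by
      simp only [bil, Matrix.of_apply, Dm, dl, mul_ite, mul_one, mul_zero, ite_mul, zero_mul,
        Finset.sum_ite_eq, Finset.mem_univ, if_true]
      rw [Finset.mul_sum]
      exact Finset.sum_congr rfl fun i _ => by ring
    rw [h, hUij]
    simp only [hd]
    ring
  · have h : bil (Matrix.of fun i a => U i a * d a) Jm a b =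
        d a * d b * ∑ i, ∑ l, U i a * J i l * U l b := by
      simp only [bil, Matrix.of_apply, Jm, Finset.mul_sum]
      refine Finset.sum_congr rfl fun i _ => Finset.sum_congr rfl fun l _ => by ring
    rw [h, hUJ]
    simp only [hd]
    ring

/-! ### Integer tensors -/

def e0z (a : Fin 8) : ℤ := if a = 0 then 1 else 0
def e1z (a : Fin 8) : ℤ := if a = 1 then 1 else 0
def hz (a b : Fin 8) : ℤ := if a = b ∧ 2 ≤ a.val then 1 else 0
def kz (a b : Fin 8) : ℤ := if 2 ≤ a.val ∧ 2 ≤ b.val then jz a b else 0
def oz (a b : Fin 8) : ℤ := e0z a * e1z b - e0z b * e1z a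

def TuZ (a b c d : Fin 8) : ℤ := oz a b * oz c d
def TsZ (a b c d : Fin 8) : ℤ :=
  hz a c * (e1z b * e1z d) + (e1z a * e1z c) * hz b d - hz a d * (e1z b * e1z c) -
    (e1z a * e1z d) * hz b c
def TqZ (a b c d : Fin 8) : ℤ := kz a c * kz b d - kz a d * kz b c + 2 * kz a b * kz c d
def TcZ (a b c d : Fin 8) : ℤ :=
  oz a c * kz b d + oz b d * kz a c - oz a d * kz b c - oz b c * kz a d +
    2 * oz a b * kz c d + 2 * kz a b * oz c d

theorem dl_split : ∀ a b : Fin 8, (if a = b then (1 : ℤ) else 0) =
    hz a b + e0z a * e0z b + e1z a * e1z b := by decide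

theorem j_split : ∀ a b : Fin 8, jz a b = kz a b - oz a b := by decide

theorem hz_one : ∀ a b : Fin 8, (a = 1 ∨ b = 1) → hz a b = 0 ∧ kz a b = 0 := by decide

end Pool.Agent.H608R3.GBC
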