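import Mathlib

/-!
Riemannian metrics on `ℝⁿ` in the standard coordinates: curvature, Gauss-Bonnet curvature `L₂`,
completeness, asymptotic flatness and the Gauss-Bonnet-Chern mass.
-/

set_option autoImplicit false

open MeasureTheory Filter
open scoped Topology ContDiff Nat

noncomputable section

namespace Pool.Agent.H608R3.GBC

/-- `ℝⁿ` with its standard coordinates `x 0, …, x (n - 1)`. -/
abbrev Pt (n : ℕ) : Type := EuclideanSpace ℝ (Fin n)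

/-- The partial derivative `∂_k f` at `x`. -/
def pd {n : ℕ} (k : Fin n) (f : Pt n → ℝ) (x : Pt n) : ℝ :=
  fderiv ℝ f x (EuclideanSpace.single k 1)

variable {n : ℕ}

/-- `g` is (the matrix of coefficients in the standard coordinates of) a smooth Riemannian metric
on `ℝⁿ`: smooth coefficients, symmetric and positive definite at every point. -/
structure IsRiemannianMetric (g : Pt n → Matrix (Fin n) (Fin n) ℝ) : Prop where
  smooth : ∀ i j, ContDiff ℝ ∞ (fun x => g x i j)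
  posDef : ∀ x, (g x).PosDef

/-- Christoffel symbols of the first kind `Γ_{a,kl} = (∂_k g_{la} + ∂_l g_{ka} - ∂_a g_{kl}) / 2`. -/
def chr (g : Pt n → Matrix (Fin n) (Fin n) ℝ) (a k l : Fin n) (x : Pt n) : ℝ :=
  (pd k (fun y => g y l a) x + pd l (fun y => g y k a) x - pd a (fun y => g y k l) x) / 2

/-- The Riemann tensor `R_{iklm}` in coordinates,
`R_{iklm} = (∂_k∂_l g_{im} + ∂_i∂_m g_{kl} - ∂_k∂_m g_{il} - ∂_i∂_l g_{km}) / 2
  + g^{ab} (Γ_{a,kl} Γ_{b,im} - Γ_{a,km} Γ_{b,il})`,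
with the sign for which `R(u,v,u,v)` is the sectional curvature of an orthonormal pair. -/
def riem (g : Pt n → Matrix (Fin n) (Fin n) ℝ) (i k l m : Fin n) (x : Pt n) : ℝ :=
  (pd l (pd k (fun y => g y i m)) x + pd m (pd i (fun y => g y k l)) x
    - pd m (pd k (fun y => g y i l)) x - pd l (pd i (fun y => g y k m)) x) / 2
  + ∑ a, ∑ b, (g x)⁻¹ a b * (chr g a k l x * chr g b i m x - chr g a k m x * chr g b i l x)

/-- `R^{iklm}`: all indices raised with the inverse metric. -/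
def riemUp (g : Pt n → Matrix (Fin n) (Fin n) ℝ) (i k l m : Fin n) (x : Pt n) : ℝ :=
  ∑ a, ∑ b, ∑ c, ∑ d,
    (g x)⁻¹ i a * (g x)⁻¹ k b * (g x)⁻¹ l c * (g x)⁻¹ m d * riem g a b c d x

/-- `R_{ik}^{lm}`: the last two indices raised. -/
def riemMix (g : Pt n → Matrix (Fin n) (Fin n) ℝ) (i k l m : Fin n) (x : Pt n) : ℝ :=
  ∑ c, ∑ d, (g x)⁻¹ l c * (g x)⁻¹ m d * riem g i k c d x

/-- The Ricci tensor `Ric_{km} = g^{il} R_{iklm}`. -/
def ric (g : Pt n → Matrix (Fin n) (Fin n) ℝ) (k m : Fin n) (x : Pt n) : ℝ :=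
  ∑ i, ∑ l, (g x)⁻¹ i l * riem g i k l m x

/-- The scalar curvature. -/
def scal (g : Pt n → Matrix (Fin n) (Fin n) ℝ) (x : Pt n) : ℝ :=
  ∑ k, ∑ m, (g x)⁻¹ k m * ric g k m x

/-- The Gauss-Bonnet curvature `L₂ = |Rm|² - 4 |Ric|² + R²`. -/
def L2 (g : Pt n → Matrix (Fin n) (Fin n) ℝ) (x : Pt n) : ℝ :=
  (∑ i, ∑ k, ∑ l, ∑ m, riem g i k l m x * riemUp g i k l m x)
    - 4 * (∑ k, ∑ m, ∑ a, ∑ b, (g x)⁻¹ k a * (g x)⁻¹ m b * ric g k m x * ric g a b x)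
    + scal g x ^ 2

/-- The generalized Kronecker delta `δ^{i₁i₂i₃i₄}_{j₁j₂j₃j₄} = det (δ^{i_a}_{j_b})`. -/
def gdelta (i j : Fin 4 → Fin n) : ℝ :=
  Matrix.det (Matrix.of fun a b : Fin 4 => if i a = j b then (1 : ℝ) else 0)

/-- The tensor `P^{stlm} = (1/4) δ^{i₁i₂st}_{j₁j₂j₃j₄} R_{i₁i₂}^{j₁j₂} g^{j₃l} g^{j₄m}`. -/
def P (g : Pt n → Matrix (Fin n) (Fin n) ℝ) (s t l m : Fin n) (x : Pt n) : ℝ :=
  1 / 4 * ∑ i₁, ∑ i₂, ∑ j₁, ∑ j₂, ∑ j₃, ∑ j₄,
    gdelta ![i₁, i₂, s, t] ![j₁, j₂, j₃, j₄] * riemMix g i₁ i₂ j₁ j₂ x *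
      (g x)⁻¹ j₃ l * (g x)⁻¹ j₄ m

/-- The integrand `P^{ijml} ∂_l g_{jm} ν_i` of the mass, `ν = x / |x|` the outward unit normal of
the coordinate sphere through `x`. -/
def massDensity (g : Pt n → Matrix (Fin n) (Fin n) ℝ) (x : Pt n) : ℝ :=
  ∑ i, ∑ j, ∑ m, ∑ l, P g i j m l x * pd l (fun y => g y j m) x * (x i / ‖x‖)

/-- The area `ω_{n-1}` of the unit sphere of `ℝⁿ`. -/
def sphereArea (n : ℕ) : ℝ := ((volume : Measure (Pt n)).toSphere Set.univ).toReal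

/-- The integral of `P^{ijml} ∂_l g_{jm} ν_i` over the coordinate sphere `S_r` of radius `r`. -/
def flux (g : Pt n → Matrix (Fin n) (Fin n) ℝ) (r : ℝ) : ℝ :=
  r ^ (n - 1) * ∫ w, massDensity g (r • (w : Pt n)) ∂((volume : Measure (Pt n)).toSphere)

/-- The normalising constant `c(n,2) = (n-4)! / (2 (n-1)! ω_{n-1})`. -/
def massConst (n : ℕ) : ℝ := ((n - 4)! : ℝ) / (2 * ((n - 1)! : ℝ) * sphereArea n)

/-- `m` is the Gauss-Bonnet-Chern mass `m₂` of `g`. -/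
def HasGBCMass (g : Pt n → Matrix (Fin n) (Fin n) ℝ) (m : ℝ) : Prop :=
  Tendsto (fun r => massConst n * flux g r) atTop (𝓝 m)

/-- `g` is asymptotically flat of order `τ`, with `L₂` integrable for the Riemannian volume. -/
structure IsAsymptoticallyFlat (g : Pt n → Matrix (Fin n) (Fin n) ℝ) (τ : ℝ) : Prop where
  decay : ∃ C R₀ : ℝ, ∀ x : Pt n, R₀ ≤ ‖x‖ → ∀ i j k l : Fin n,
    |g x i j - if i = j then 1 else 0| ≤ C * ‖x‖ ^ (-τ) ∧
    |pd k (fun y => g y i j) x| ≤ C * ‖x‖ ^ (-τ - 1) ∧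
    |pd l (pd k (fun y => g y i j)) x| ≤ C * ‖x‖ ^ (-τ - 2)
  integrable : Integrable (fun x => L2 g x * √(g x).det) volume

/-- The length of the path `γ : [0, 1] → ℝⁿ` for the metric `g`. -/
def pathLength (g : Pt n → Matrix (Fin n) (Fin n) ℝ) (γ : ℝ → Pt n) : ℝ :=
  ∫ t in (0 : ℝ)..1, √(∑ i, ∑ j, g (γ t) i j * deriv γ t i * deriv γ t j)

/-- The Riemannian distance of `g`: the infimum of the lengths of the `C¹` paths from `x` to `y`. -/
def riemDist (g : Pt n → Matrix (Fin n) (Fin n) ℝ) (x y : Pt n) : ℝ :=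
  sInf {L : ℝ | ∃ γ : ℝ → Pt n, ContDiff ℝ 1 γ ∧ γ 0 = x ∧ γ 1 = y ∧ L = pathLength g γ}

/-- `(ℝⁿ, g)` is complete: every Cauchy sequence for the Riemannian distance converges. -/
def IsCompleteMetric (g : Pt n → Matrix (Fin n) (Fin n) ℝ) : Prop :=
  ∀ u : ℕ → Pt n,
    (∀ ε > 0, ∃ N, ∀ p ≥ N, ∀ q ≥ N, riemDist g (u p) (u q) < ε) →
      ∃ x, Tendsto (fun k => riemDist g (u k) x) atTop (𝓝 0)

end Pool.Agent.H608R3.GBC
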