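import Pool.Agent.H608R3.GBC.PExp

set_option autoImplicit false
set_option maxHeartbeats 4000000

open MeasureTheory Filter
open scoped Topology ContDiff Kronecker

noncomputable section

namespace Pool.Agent.H608R3.GBC

variable {x : Pt 8} {t y : ℝ} {B : Matrix (Fin 8) (Fin 8) ℝ}

theorem inv_symm (hA : Adapted x t y B) (i j : Fin 8) : (g8 x)⁻¹ i j = (g8 x)⁻¹ j i := by
  rw [inv_entry hA, inv_entry hA]
  exact Finset.sum_congr rfl fun a _ => by ring

theorem mix_trace (hA : Adapted x t y B) :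
    ∑ i, ∑ k, riemMix g8 i k i k x = ∑ b, RR x y b b := by
  rw [← scal_frame hA]
  simp only [riemMix, scal, ric, Finset.mul_sum]
  calc ∑ i, ∑ k, ∑ c, ∑ d, (g8 x)⁻¹ i c * (g8 x)⁻¹ k d * riem g8 i k c d x
      = ∑ k, ∑ i, ∑ c, ∑ d, (g8 x)⁻¹ i c * (g8 x)⁻¹ k d * riem g8 i k c d x := Finset.sum_comm
    _ = ∑ k, ∑ i, ∑ d, ∑ c, (g8 x)⁻¹ i c * (g8 x)⁻¹ k d * riem g8 i k c d x :=
        Finset.sum_congr rfl fun k _ => Finset.sum_congr rfl fun i _ => Finset.sum_comm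
    _ = ∑ k, ∑ d, ∑ i, ∑ c, (g8 x)⁻¹ i c * (g8 x)⁻¹ k d * riem g8 i k c d x :=
        Finset.sum_congr rfl fun k _ => Finset.sum_comm
    _ = _ := by
        refine Finset.sum_congr rfl fun k _ => Finset.sum_congr rfl fun d _ =>
          Finset.sum_congr rfl fun i _ => Finset.sum_congr rfl fun c _ => by ring

theorem mix_up (hA : Adapted x t y B) (l m s u : Fin 8) :
    ∑ i, ∑ k, riemMix g8 i k s u x * (g8 x)⁻¹ i l * (g8 x)⁻¹ k m = riemUp g8 l m s u x := by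
  simp only [riemMix, riemUp, Finset.sum_mul]
  refine Finset.sum_congr rfl fun i _ => Finset.sum_congr rfl fun k _ =>
    Finset.sum_congr rfl fun c _ => Finset.sum_congr rfl fun d _ => ?_
  rw [inv_symm hA i l, inv_symm hA k m]
  ring

theorem mix_ric (hA : Adapted x t y B) (s m : Fin 8) :
    ∑ i, ∑ k, riemMix g8 i k i s x * (g8 x)⁻¹ k m =
      ∑ k, ∑ d, (g8 x)⁻¹ s d * ric g8 k d x * (g8 x)⁻¹ m k := by
  simp only [riemMix, ric, Finset.sum_mul, Finset.mul_sum]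
  calc ∑ i, ∑ k, ∑ c, ∑ d, (g8 x)⁻¹ i c * (g8 x)⁻¹ s d * riem g8 i k c d x * (g8 x)⁻¹ k m
      = ∑ k, ∑ i, ∑ c, ∑ d, (g8 x)⁻¹ i c * (g8 x)⁻¹ s d * riem g8 i k c d x * (g8 x)⁻¹ k m :=
        Finset.sum_comm
    _ = ∑ k, ∑ i, ∑ d, ∑ c, (g8 x)⁻¹ i c * (g8 x)⁻¹ s d * riem g8 i k c d x * (g8 x)⁻¹ k m :=
        Finset.sum_congr rfl fun k _ => Finset.sum_congr rfl fun i _ => Finset.sum_comm
    _ = ∑ k, ∑ d, ∑ i, ∑ c, (g8 x)⁻¹ i c * (g8 x)⁻¹ s d * riem g8 i k c d x * (g8 x)⁻¹ k m :=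
        Finset.sum_congr rfl fun k _ => Finset.sum_comm
    _ = _ := by
        refine Finset.sum_congr rfl fun k _ => Finset.sum_congr rfl fun d _ =>
          Finset.sum_congr rfl fun i _ => Finset.sum_congr rfl fun c _ => ?_
        rw [inv_symm hA k m]
        ring

theorem ric_up (hA : Adapted x t y B) (s m : Fin 8) :
    ∑ i, ∑ k, riemMix g8 i k i s x * (g8 x)⁻¹ k m =
      bil B.transpose (Matrix.of (RR x y)) s m := by
  rw [mix_ric hA]
  have h1 : (Matrix.of (RR x y)).transpose = Matrix.of (RR x y) := by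
    ext b d
    simp only [Matrix.transpose_apply, Matrix.of_apply, RR_diag]
    by_cases h : b = d
    · subst h; rfl
    · rw [if_neg h, if_neg (Ne.symm h)]
  have h2 : bilM B.transpose (Matrix.of (RR x y)) =
      (g8 x)⁻¹ * ((RicM x).transpose * (g8 x)⁻¹.transpose) := by
    rw [bilM_eq, ← h1, ← RicM_frame hA, hA.inv]
    simp only [Matrix.transpose_mul, Matrix.transpose_transpose, Matrix.mul_assoc]
  have h3 := congrFun (congrFun h2 s) m
  simp only [bilM, Matrix.of_apply] at h3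
  rw [h3, Matrix.mul_apply]
  simp only [Matrix.mul_apply, Matrix.transpose_apply, RicM, Matrix.of_apply, Finset.mul_sum]
  rw [Finset.sum_comm]
  refine Finset.sum_congr rfl fun k _ => Finset.sum_congr rfl fun d _ => by ring

theorem inv_bil (hA : Adapted x t y B) (s m : Fin 8) :
    (g8 x)⁻¹ s m = bil B.transpose Dm s m := by
  rw [inv_entry hA]
  simp only [bil, Dm, dl, Matrix.of_apply, mul_ite, mul_one, mul_zero, ite_mul, zero_mul,
    Finset.sum_ite_eq, Finset.mem_univ, if_true, Matrix.transpose_apply]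

theorem pb_swap (C : Matrix (Fin 8) (Fin 8) ℝ) (T : Fin 8 → Fin 8 → Fin 8 → Fin 8 → ℝ)
    (l m s u : Fin 8) : pb C T l m s u = pb C (fun a b c d => T c d a b) s u l m := by
  simp only [pb]
  calc ∑ i, ∑ k, ∑ c, ∑ d, C i l * C k m * C c s * C d u * T i k c d
      = ∑ i, ∑ c, ∑ k, ∑ d, C i l * C k m * C c s * C d u * T i k c d :=
        Finset.sum_congr rfl fun i _ => Finset.sum_comm
    _ = ∑ c, ∑ i, ∑ k, ∑ d, C i l * C k m * C c s * C d u * T i k c d := Finset.sum_comm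
    _ = ∑ c, ∑ i, ∑ d, ∑ k, C i l * C k m * C c s * C d u * T i k c d :=
        Finset.sum_congr rfl fun i _ => Finset.sum_congr rfl fun k _ => Finset.sum_comm
    _ = ∑ c, ∑ d, ∑ i, ∑ k, C i l * C k m * C c s * C d u * T i k c d :=
        Finset.sum_congr rfl fun i _ => Finset.sum_comm
    _ = _ := by
        refine Finset.sum_congr rfl fun k _ => Finset.sum_congr rfl fun d _ =>
          Finset.sum_congr rfl fun i _ => Finset.sum_congr rfl fun c _ => by ring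

/-- the tensor `P` in the frame -/
def PP (x : Pt 8) (y : ℝ) (a b c d : Fin 8) : ℝ :=
  (cu x y + 6 * cs x y + 9 * cq x) * (dl a c * dl b d - dl a d * dl b c) +
    RR x y a d * dl b c - RR x y a c * dl b d + RR x y b c * dl a d - RR x y b d * dl a c +
    TT x y c d a b

theorem P_frame (hA : Adapted x t y B) (s u l m : Fin 8) :
    P g8 s u l m x = pb B.transpose (PP x y) s u l m := by
  rw [P_explicit, mix_trace hA, ric_up hA, ric_up hA, ric_up hA, ric_up hA, mix_up hA,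
    riemUp_frame hA, pb_swap, RR_trace]
  rw [inv_bil hA s l, inv_bil hA u m, inv_bil hA s m, inv_bil hA u l]
  have h : PP x y = fun a b c d =>
      ((((((cu x y + 6 * cs x y + 9 * cq x) * (Dm a c * Dm b d) +
        (-(cu x y + 6 * cs x y + 9 * cq x)) * (Dm a d * Dm b c)) +
        Matrix.of (RR x y) a d * Dm b c) + (-1) * (Matrix.of (RR x y) a c * Dm b d)) +
        Dm a d * Matrix.of (RR x y) b c) + (-1) * (Dm a c * Matrix.of (RR x y) b d)) +
        TT x y c d a b := by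
    funext a b c d
    simp only [PP, Dm, Matrix.of_apply]
    ring
  rw [h]
  rw [pb_add _ (fun a b c d => ((((((cu x y + 6 * cs x y + 9 * cq x) * (Dm a c * Dm b d) +
        (-(cu x y + 6 * cs x y + 9 * cq x)) * (Dm a d * Dm b c)) +
        Matrix.of (RR x y) a d * Dm b c) + (-1) * (Matrix.of (RR x y) a c * Dm b d)) +
        Dm a d * Matrix.of (RR x y) b c) + (-1) * (Dm a c * Matrix.of (RR x y) b d))),
    pb_add _ (fun a b c d => (((((cu x y + 6 * cs x y + 9 * cq x) * (Dm a c * Dm b d) +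
        (-(cu x y + 6 * cs x y + 9 * cq x)) * (Dm a d * Dm b c)) +
        Matrix.of (RR x y) a d * Dm b c) + (-1) * (Matrix.of (RR x y) a c * Dm b d)) +
        Dm a d * Matrix.of (RR x y) b c)),
    pb_add _ (fun a b c d => ((((cu x y + 6 * cs x y + 9 * cq x) * (Dm a c * Dm b d) +
        (-(cu x y + 6 * cs x y + 9 * cq x)) * (Dm a d * Dm b c)) +
        Matrix.of (RR x y) a d * Dm b c) + (-1) * (Matrix.of (RR x y) a c * Dm b d))),
    pb_add _ (fun a b c d => (((cu x y + 6 * cs x y + 9 * cq x) * (Dm a c * Dm b d) +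
        (-(cu x y + 6 * cs x y + 9 * cq x)) * (Dm a d * Dm b c)) +
        Matrix.of (RR x y) a d * Dm b c)),
    pb_add _ (fun a b c d => ((cu x y + 6 * cs x y + 9 * cq x) * (Dm a c * Dm b d) +
        (-(cu x y + 6 * cs x y + 9 * cq x)) * (Dm a d * Dm b c))),
    pb_add _ (fun a b c d => ((cu x y + 6 * cs x y + 9 * cq x) * (Dm a c * Dm b d))),
    pb_smul, pb_smul, pb_smul, pb_smul, four_a, four_b, four_b, four_a, four_b, four_a]
  ring

/-! ### the mass density -/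

def E1Z (a b c d : Fin 8) : ℤ := e0z a * e1z b * e1z c * e0z d
def E2Z (a b c d : Fin 8) : ℤ := e0z a * e1z c * kz b d
def E3Z (a b c d : Fin 8) : ℤ := e0z a * e1z c * oz b d
def E4Z (a b c d : Fin 8) : ℤ := e0z a * e1z b * kz c d
def E5Z (a b c d : Fin 8) : ℤ := e0z a * e1z b * oz c d

def dz (a b : Fin 8) : ℤ := if a = b then 1 else 0

/-- integer version of `PP` -/
def PZ (h : ℤ) (R : Fin 8 → Fin 8 → ℤ) (T : Fin 8 → Fin 8 → Fin 8 → Fin 8 → ℤ)
    (a b c d : Fin 8) : ℤ :=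
  h * (dz a c * dz b d - dz a d * dz b c) +
    R a d * dz b c - R a c * dz b d + R b c * dz a d - R b d * dz a c + T c d a b

def RuZ (a b : Fin 8) : ℤ := e0z a * e0z b + e1z a * e1z b
def RsZ (a b : Fin 8) : ℤ := hz a b + 6 * (e1z a * e1z b)
def RqZ (a b : Fin 8) : ℤ := 3 * hz a b

def PuZ := PZ 1 RuZ TuZ
def PsZ := PZ 6 RsZ TsZ
def PqZ := PZ 9 RqZ TqZ
def PcZ := PZ 0 (fun _ _ => 0) TcZ

/-- the part of the pairing with `a = 0` -/
def pair3 (S T : Fin 8 → Fin 8 → Fin 8 → Fin 8 → ℤ) : ℤ :=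
  ∑ b, ∑ c, ∑ d, S 0 b c d * T 0 b c d

theorem pairZ_eq (S T : Fin 8 → Fin 8 → Fin 8 → Fin 8 → ℤ)
    (h : ∀ a b c d, a ≠ 0 → T a b c d = 0) : pairZ S T = pair3 S T := by
  unfold pairZ pair3
  rw [Finset.sum_eq_single 0]
  · intro a _ ha
    refine Finset.sum_eq_zero fun b _ => Finset.sum_eq_zero fun c _ =>
      Finset.sum_eq_zero fun d _ => ?_
    rw [h a b c d ha, mul_zero]
  · simp

theorem e1v (a b c d : Fin 8) (h : a ≠ 0) : E1Z a b c d = 0 := by simp [E1Z, e0z, h]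
theorem e2v (a b c d : Fin 8) (h : a ≠ 0) : E2Z a b c d = 0 := by simp [E2Z, e0z, h]
theorem e3v (a b c d : Fin 8) (h : a ≠ 0) : E3Z a b c d = 0 := by simp [E3Z, e0z, h]
theorem e4v (a b c d : Fin 8) (h : a ≠ 0) : E4Z a b c d = 0 := by simp [E4Z, e0z, h]
theorem e5v (a b c d : Fin 8) (h : a ≠ 0) : E5Z a b c d = 0 := by simp [E5Z, e0z, h]

theorem pu1 : pairZ PuZ E1Z = 0 := by
  rw [pairZ_eq _ _ e1v]
  decide +kernel
theorem pu2 : pairZ PuZ E2Z = 0 := by
  rw [pairZ_eq _ _ e2v]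
  decide +kernel
theorem pu3 : pairZ PuZ E3Z = 0 := by
  rw [pairZ_eq _ _ e3v]
  decide +kernel
theorem pu4 : pairZ PuZ E4Z = 0 := by
  rw [pairZ_eq _ _ e4v]
  decide +kernel
theorem pu5 : pairZ PuZ E5Z = 0 := by
  rw [pairZ_eq _ _ e5v]
  decide +kernel
theorem ps1 : pairZ PsZ E1Z = 0 := by
  rw [pairZ_eq _ _ e1v]
  decide +kernel
theorem ps2 : pairZ PsZ E2Z = 0 := by
  rw [pairZ_eq _ _ e2v]
  decide +kernel
theorem ps3 : pairZ PsZ E3Z = 0 := by
  rw [pairZ_eq _ _ e3v]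
  decide +kernel
theorem ps4 : pairZ PsZ E4Z = 0 := by
  rw [pairZ_eq _ _ e4v]
  decide +kernel
theorem ps5 : pairZ PsZ E5Z = 0 := by
  rw [pairZ_eq _ _ e5v]
  decide +kernel
theorem pq1 : pairZ PqZ E1Z = -9 := by
  rw [pairZ_eq _ _ e1v]
  decide +kernel
theorem pq2 : pairZ PqZ E2Z = 0 := by
  rw [pairZ_eq _ _ e2v]
  decide +kernel
theorem pq3 : pairZ PqZ E3Z = 9 := by
  rw [pairZ_eq _ _ e3v]
  decide +kernel
theorem pq4 : pairZ PqZ E4Z = 0 := by
  rw [pairZ_eq _ _ e4v]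
  decide +kernel
theorem pq5 : pairZ PqZ E5Z = 18 := by
  rw [pairZ_eq _ _ e5v]
  decide +kernel
theorem pc1 : pairZ PcZ E1Z = 0 := by
  rw [pairZ_eq _ _ e1v]
  decide +kernel
theorem pc2 : pairZ PcZ E2Z = 6 := by
  rw [pairZ_eq _ _ e2v]
  decide +kernel
theorem pc3 : pairZ PcZ E3Z = 0 := by
  rw [pairZ_eq _ _ e3v]
  decide +kernel
theorem pc4 : pairZ PcZ E4Z = 12 := by
  rw [pairZ_eq _ _ e4v]
  decide +kernel
theorem pc5 : pairZ PcZ E5Z = 0 := by
  rw [pairZ_eq _ _ e5v]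
  decide +kernel

theorem PP_eq (x : Pt 8) (y : ℝ) : PP x y = fun a b c d =>
    cu x y * (PuZ a b c d : ℝ) + cs x y * (PsZ a b c d : ℝ) + cq x * (PqZ a b c d : ℝ) +
      cc x y * (PcZ a b c d : ℝ) := by
  funext a b c d
  have hd : ∀ a b : Fin 8, dl a b = (dz a b : ℝ) := by
    intro a b
    simp only [dl, dz]
    push_cast
    rfl
  simp only [PP, PuZ, PsZ, PqZ, PcZ, PZ, RuZ, RsZ, RqZ, RR, TT, hd, e0, e1, hh]
  push_cast
  ring

theorem massDensity_value (x : Pt 8) (hx : x ≠ 0) :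
    massDensity g8 x = 9 * ‖x‖ * F0 (nsq x) * (5 * F0 (nsq x) + 4 * nsq x * F1 (nsq x)) /
      (1 + F0 (nsq x) * nsq x) := by
  obtain ⟨t, y, B, hA⟩ := exists_B x
  have hn : ‖x‖ ^ 2 = nsq x := by
    rw [EuclideanSpace.norm_sq_eq]
    simp [nsq]
  have hn0 : 0 < ‖x‖ := norm_pos_iff.2 hx
  have ht : t = ‖x‖ := by
    have h1 : t ^ 2 = ‖x‖ ^ 2 := by rw [hn, hA.t_sq]
    exact (sq_eq_sq₀ hA.t_nonneg hn0.le).1 h1
  have hy := hA.y_pos.ne'
  -- rewrite as a pairing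
  have h1 : massDensity g8 x = pairR (pb B.transpose (PP x y)) (fun i j m l =>
      ((2 * F1 (nsq x) / ‖x‖) * ((Matrix.of fun i j => x i * xi j x : Matrix _ _ ℝ) i m *
          (Matrix.of fun i j => xi i x * x j : Matrix _ _ ℝ) j l) +
        (F0 (nsq x) / ‖x‖) * ((Matrix.of fun i j => x i * xi j x : Matrix _ _ ℝ) i m * Jm j l)) +
        (F0 (nsq x) / ‖x‖) * ((Matrix.of fun i j => x i * xi j x : Matrix _ _ ℝ) i j *
          Jm m l)) := by
    simp only [massDensity, pairR, P_frame hA, pd_g]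
    refine Finset.sum_congr rfl fun i _ => Finset.sum_congr rfl fun j _ =>
      Finset.sum_congr rfl fun m _ => Finset.sum_congr rfl fun l _ => ?_
    simp only [Matrix.of_apply, Jm]
    ring
  rw [h1, pairR_pb]
  have h2 : pb B (fun i j m l =>
      ((2 * F1 (nsq x) / ‖x‖) * ((Matrix.of fun i j => x i * xi j x : Matrix _ _ ℝ) i m *
          (Matrix.of fun i j => xi i x * x j : Matrix _ _ ℝ) j l) +
        (F0 (nsq x) / ‖x‖) * ((Matrix.of fun i j => x i * xi j x : Matrix _ _ ℝ) i m * Jm j l)) +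
        (F0 (nsq x) / ‖x‖) * ((Matrix.of fun i j => x i * xi j x : Matrix _ _ ℝ) i j *
          Jm m l)) = fun a b c d =>
      (2 * F1 (nsq x) * t ^ 3 / y ^ 2) * (E1Z a b c d : ℝ) + (F0 (nsq x) * t / y) *
        (E2Z a b c d : ℝ) + (- (F0 (nsq x) * t / y ^ 2)) * (E3Z a b c d : ℝ) +
        (F0 (nsq x) * t / y) * (E4Z a b c d : ℝ) + (- (F0 (nsq x) * t / y ^ 2)) *
        (E5Z a b c d : ℝ) := by
    funext a b c d
    rw [pb_add B (fun i j m l =>
      ((2 * F1 (nsq x) / ‖x‖) * ((Matrix.of fun i j => x i * xi j x : Matrix _ _ ℝ) i m *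
          (Matrix.of fun i j => xi i x * x j : Matrix _ _ ℝ) j l) +
        (F0 (nsq x) / ‖x‖) * ((Matrix.of fun i j => x i * xi j x : Matrix _ _ ℝ) i m * Jm j l))),
      pb_add B (fun i j m l =>
      ((2 * F1 (nsq x) / ‖x‖) * ((Matrix.of fun i j => x i * xi j x : Matrix _ _ ℝ) i m *
          (Matrix.of fun i j => xi i x * x j : Matrix _ _ ℝ) j l))),
      pb_smul, pb_smul, pb_smul, four_a, four_a, four_c, bil_J hA, bil_J hA,
      bil_rank B (fun i => x i) (fun i => xi i x), bil_rank B (fun i => xi i x) (fun i => x i),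
      bil_rank B (fun i => x i) (fun i => xi i x)]
    simp only [X_val hA, Y_val hA, oo_eq, E1Z, E2Z, E3Z, E4Z, E5Z, e0, e1, kk, ← ht]
    push_cast
    have ht0 : t ≠ 0 := by rw [ht]; exact hn0.ne'
    field_simp
    ring
  rw [h2, PP_eq, pairR_comb]
  rw [pairR_comm (fun a b c d => (PuZ a b c d : ℝ)), pairR_comm (fun a b c d => (PsZ a b c d : ℝ)),
    pairR_comm (fun a b c d => (PqZ a b c d : ℝ)), pairR_comm (fun a b c d => (PcZ a b c d : ℝ))]
  have h5 : ∀ (p q r s u : ℝ) (S1 S2 S3 S4 S5 T : Fin 8 → Fin 8 → Fin 8 → Fin 8 → ℤ),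
      pairR (fun a b c d => p * (S1 a b c d : ℝ) + q * (S2 a b c d : ℝ) + r * (S3 a b c d : ℝ) +
        s * (S4 a b c d : ℝ) + u * (S5 a b c d : ℝ)) (fun a b c d => (T a b c d : ℝ)) =
      p * (pairZ T S1 : ℝ) + q * (pairZ T S2 : ℝ) + r * (pairZ T S3 : ℝ) +
        s * (pairZ T S4 : ℝ) + u * (pairZ T S5 : ℝ) := by
    intro p q r s u S1 S2 S3 S4 S5 T
    rw [pairR_add_left (fun a b c d => p * (S1 a b c d : ℝ) + q * (S2 a b c d : ℝ) +
      r * (S3 a b c d : ℝ) + s * (S4 a b c d : ℝ)) (fun a b c d => u * (S5 a b c d : ℝ)),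
      pairR_comb, pairR_smul_left]
    rw [pairR_comm (fun a b c d => (S1 a b c d : ℝ)), pairR_comm (fun a b c d => (S2 a b c d : ℝ)),
      pairR_comm (fun a b c d => (S3 a b c d : ℝ)), pairR_comm (fun a b c d => (S4 a b c d : ℝ)),
      pairR_comm (fun a b c d => (S5 a b c d : ℝ))]
    simp only [pairR_cast]
  rw [h5, h5, h5, h5]
  simp only [pu1, pu2, pu3, pu4, pu5, ps1, ps2, ps3, ps4, ps5, pq1, pq2, pq3, pq4, pq5, pc1, pc2,
    pc3, pc4, pc5]
  push_cast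
  have hy2 : y ^ 2 = 1 + F0 (nsq x) * nsq x := hA.y_sq
  rw [← hy2]
  unfold cq cc
  rw [← ht, ← hA.t_sq]
  field_simp
  ring

end Pool.Agent.H608R3.GBC
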