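import Pool.Agent.H608R3.GBC.Defs

set_option autoImplicit false

open MeasureTheory Filter
open scoped Topology ContDiff

noncomputable section

namespace Pool.Agent.H608R3.GBC

/-- the standard complex structure of `ℝ⁸ = ℂ⁴` -/
def jz : Fin 8 → Fin 8 → ℤ := fun a b =>
  if a.val = b.val + 1 ∧ b.val % 2 = 0 then 1
  else if b.val = a.val + 1 ∧ a.val % 2 = 0 then -1 else 0

def J (i j : Fin 8) : ℝ := (jz i j : ℝ)

def nsq (x : Pt 8) : ℝ := ∑ k, x k ^ 2

def xi (i : Fin 8) (x : Pt 8) : ℝ := ∑ j, J i j * x j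

def F0 (s : ℝ) : ℝ := 10 / (1 + s ^ 2)
def F1 (s : ℝ) : ℝ := -(20 * s) / (1 + s ^ 2) ^ 2
def F2 (s : ℝ) : ℝ := -20 / (1 + s ^ 2) ^ 2 + 80 * s ^ 2 / (1 + s ^ 2) ^ 3

/-- the metric `δ + 10 / (1 + |x|⁴) (Jx) ⊗ (Jx)` on `ℝ⁸` -/
def g8 (x : Pt 8) : Matrix (Fin 8) (Fin 8) ℝ :=
  Matrix.of fun i j => (if i = j then 1 else 0) + F0 (nsq x) * xi i x * xi j x

theorem hasDerivAt_F0 (s : ℝ) : HasDerivAt F0 (F1 s) s := by
  have h : (1 + s ^ 2) ≠ 0 := by positivity
  have h1 : HasDerivAt (fun s : ℝ => 1 + s ^ 2) (2 * s) s := by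
    simpa using (hasDerivAt_pow 2 s).const_add 1
  have h2 := (hasDerivAt_const s (10 : ℝ)).div h1 h
  refine h2.congr_deriv ?_
  unfold F1
  ring

theorem hasDerivAt_F1 (s : ℝ) : HasDerivAt F1 (F2 s) s := by
  have h : (1 + s ^ 2) ≠ 0 := by positivity
  have h1 : HasDerivAt (fun s : ℝ => 1 + s ^ 2) (2 * s) s := by
    simpa using (hasDerivAt_pow 2 s).const_add 1
  have h3 : HasDerivAt (fun s : ℝ => (1 + s ^ 2) ^ 2) (2 * (1 + s ^ 2) * (2 * s)) s := by
    simpa using h1.fun_pow 2
  have h4 : HasDerivAt (fun s : ℝ => -(20 * s)) (-20) s := by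
    simpa using ((hasDerivAt_id s).const_mul 20).fun_neg
  have h2 := h4.div h3 (pow_ne_zero 2 h)
  refine h2.congr_deriv ?_
  unfold F2
  field_simp
  ring

section rules

variable {n : ℕ} {f h : Pt n → ℝ} {x : Pt n} (k : Fin n)

theorem pd_add (hf : DifferentiableAt ℝ f x) (hh : DifferentiableAt ℝ h x) :
    pd k (fun y => f y + h y) x = pd k f x + pd k h x := by
  unfold pd
  rw [fderiv_fun_add hf hh]
  rfl

theorem pd_mul (hf : DifferentiableAt ℝ f x) (hh : DifferentiableAt ℝ h x) :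
    pd k (fun y => f y * h y) x = pd k f x * h x + f x * pd k h x := by
  unfold pd
  rw [fderiv_fun_mul hf hh]
  simp
  ring

theorem pd_const (c : ℝ) : pd k (fun _ => c) x = 0 := by
  unfold pd
  simp

theorem pd_coord (i : Fin n) : pd k (fun y : Pt n => y i) x = if i = k then 1 else 0 := by
  unfold pd
  have h1 : (fun y : Pt n => y i) = (EuclideanSpace.proj i : Pt n →L[ℝ] ℝ) := rfl
  rw [h1, ContinuousLinearMap.fderiv]
  simp

theorem pd_sum {m : ℕ} {F : Fin m → Pt n → ℝ} (hf : ∀ i, DifferentiableAt ℝ (F i) x) :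
    pd k (fun y => ∑ i, F i y) x = ∑ i, pd k (F i) x := by
  unfold pd
  rw [fderiv_fun_sum (fun i _ => hf i)]
  simp

theorem pd_comp {φ : ℝ → ℝ} {φ' : ℝ} (hφ : HasDerivAt φ φ' (f x)) (hf : DifferentiableAt ℝ f x) :
    pd k (fun y => φ (f y)) x = φ' * pd k f x := by
  unfold pd
  have h1 := hφ.comp_hasFDerivAt x hf.hasFDerivAt
  have h2 : fderiv ℝ (fun y => φ (f y)) x = φ' • fderiv ℝ f x := h1.fderiv
  rw [h2]
  simp

end rules

@[fun_prop]
theorem diff_coord (i : Fin 8) : Differentiable ℝ (fun y : Pt 8 => y i) :=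
  (EuclideanSpace.proj i : Pt 8 →L[ℝ] ℝ).differentiable

@[fun_prop]
theorem contDiff_coord (i : Fin 8) : ContDiff ℝ ∞ (fun y : Pt 8 => y i) :=
  (EuclideanSpace.proj i : Pt 8 →L[ℝ] ℝ).contDiff

@[fun_prop]
theorem contDiff_nsq : ContDiff ℝ ∞ nsq := by
  unfold nsq
  exact ContDiff.sum fun i _ => (contDiff_coord i).pow 2

@[fun_prop]
theorem contDiff_xi (i : Fin 8) : ContDiff ℝ ∞ (xi i) := by
  unfold xi
  exact ContDiff.sum fun j _ => contDiff_const.mul (contDiff_coord j)

theorem contDiff_F0 : ContDiff ℝ ∞ F0 := by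
  unfold F0
  refine contDiff_const.div (by fun_prop) fun s => by positivity

theorem contDiff_F1 : ContDiff ℝ ∞ F1 := by
  unfold F1
  refine ContDiff.div (by fun_prop) (by fun_prop) fun s => by positivity

theorem contDiff_F2 : ContDiff ℝ ∞ F2 := by
  unfold F2
  refine ContDiff.add (contDiff_const.div (by fun_prop) fun s => by positivity)
    (ContDiff.div (by fun_prop) (by fun_prop) fun s => by positivity)

@[fun_prop]
theorem diff_nsq : Differentiable ℝ nsq := contDiff_nsq.differentiable (by simp)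
@[fun_prop]
theorem diff_xi (i : Fin 8) : Differentiable ℝ (xi i) := (contDiff_xi i).differentiable (by simp)

@[fun_prop]
theorem diffF0 : Differentiable ℝ F0 := contDiff_F0.differentiable (by simp)
@[fun_prop]
theorem diffF1 : Differentiable ℝ F1 := contDiff_F1.differentiable (by simp)

theorem pd_nsq (k : Fin 8) (x : Pt 8) : pd k nsq x = 2 * x k := by
  unfold nsq
  have h0 : pd k (fun y : Pt 8 => ∑ i, y i ^ 2) x = ∑ i, pd k (fun y : Pt 8 => y i ^ 2) x :=
    pd_sum k (F := fun i y => y i ^ 2) (fun i => by fun_prop)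
  rw [h0]
  have h : ∀ i : Fin 8, pd k (fun y : Pt 8 => y i ^ 2) x = if i = k then 2 * x k else 0 := by
    intro i
    have h1 : (fun y : Pt 8 => y i ^ 2) = fun y => y i * y i := by
      funext y
      ring
    rw [h1, pd_mul k (diff_coord i).differentiableAt (diff_coord i).differentiableAt, pd_coord]
    split_ifs with hi
    · subst hi
      ring
    · ring
  rw [Finset.sum_congr rfl fun i _ => h i]
  simp

theorem pd_xi (k i : Fin 8) (x : Pt 8) : pd k (xi i) x = J i k := by
  unfold xi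
  rw [pd_sum k (fun j => ((diff_coord j).const_mul (J i j)).differentiableAt)]
  have h : ∀ j : Fin 8, pd k (fun y : Pt 8 => J i j * y j) x = if j = k then J i k else 0 := by
    intro j
    rw [pd_mul k (differentiable_const (J i j)).differentiableAt (diff_coord j).differentiableAt,
      pd_coord, pd_const]
    split_ifs with hi
    · subst hi
      ring
    · ring
  rw [Finset.sum_congr rfl fun i _ => h i]
  simp

theorem pd_F0 (k : Fin 8) (x : Pt 8) :
    pd k (fun y => F0 (nsq y)) x = 2 * x k * F1 (nsq x) := by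
  rw [pd_comp k (hasDerivAt_F0 _) diff_nsq.differentiableAt, pd_nsq]
  ring

theorem pd_F1 (k : Fin 8) (x : Pt 8) :
    pd k (fun y => F1 (nsq y)) x = 2 * x k * F2 (nsq x) := by
  rw [pd_comp k (hasDerivAt_F1 _) diff_nsq.differentiableAt, pd_nsq]
  ring

/-- first derivatives of the metric -/
theorem pd_g (k i j : Fin 8) (x : Pt 8) :
    pd k (fun y => g8 y i j) x = 2 * x k * F1 (nsq x) * xi i x * xi j x +
      F0 (nsq x) * (J i k * xi j x + xi i x * J j k) := by
  unfold g8
  simp only [Matrix.of_apply]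
  have e1 : pd k (xi i) x = J i k := pd_xi k i x
  have e2 : pd k (xi j) x = J j k := pd_xi k j x
  rw [pd_add, pd_mul, pd_mul, pd_const, pd_F0, e1, e2]
  · ring
  all_goals fun_prop

/-- second derivatives of the metric -/
theorem pd_pd_g (l k i j : Fin 8) (x : Pt 8) :
    pd l (pd k (fun y => g8 y i j)) x =
      2 * (if k = l then 1 else 0) * F1 (nsq x) * xi i x * xi j x +
      4 * x k * x l * F2 (nsq x) * xi i x * xi j x +
      2 * x k * F1 (nsq x) * (J i l * xi j x + xi i x * J j l) +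
      2 * x l * F1 (nsq x) * (J i k * xi j x + xi i x * J j k) +
      F0 (nsq x) * (J i k * J j l + J i l * J j k) := by
  have h : pd k (fun y => g8 y i j) = fun x => 2 * x k * F1 (nsq x) * xi i x * xi j x +
      F0 (nsq x) * (J i k * xi j x + xi i x * J j k) := by
    funext x
    exact pd_g k i j x
  rw [h]
  have e1 : pd l (xi i) x = J i l := pd_xi l i x
  have e2 : pd l (xi j) x = J j l := pd_xi l j x
  have e3 : pd l (fun y : Pt 8 => 2 * y k) x = 2 * (if k = l then 1 else 0) := by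
    rw [pd_mul, pd_const, pd_coord]
    · ring
    all_goals fun_prop
  have e4 : pd l (fun y : Pt 8 => J i k * xi j y) x = J i k * J j l := by
    rw [pd_mul, pd_const, e2]
    · ring
    all_goals fun_prop
  have e5 : pd l (fun y : Pt 8 => xi i y * J j k) x = J i l * J j k := by
    rw [pd_mul, pd_const, e1]
    · ring
    all_goals fun_prop
  have e6 : pd l (fun y : Pt 8 => J i k * xi j y + xi i y * J j k) x =
      J i k * J j l + J i l * J j k := by
    rw [pd_add, e4, e5]
    all_goals fun_prop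
  have e7 : pd l (fun y : Pt 8 => 2 * y k * F1 (nsq y)) x =
      2 * (if k = l then 1 else 0) * F1 (nsq x) + 2 * x k * (2 * x l * F2 (nsq x)) := by
    rw [pd_mul, e3, pd_F1]
    all_goals fun_prop
  have e8 : pd l (fun y : Pt 8 => 2 * y k * F1 (nsq y) * xi i y) x =
      (2 * (if k = l then 1 else 0) * F1 (nsq x) + 2 * x k * (2 * x l * F2 (nsq x))) * xi i x +
        2 * x k * F1 (nsq x) * J i l := by
    rw [pd_mul, e7, e1]
    all_goals fun_prop
  have e9 : pd l (fun y : Pt 8 => 2 * y k * F1 (nsq y) * xi i y * xi j y) x =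
      ((2 * (if k = l then 1 else 0) * F1 (nsq x) + 2 * x k * (2 * x l * F2 (nsq x))) * xi i x +
        2 * x k * F1 (nsq x) * J i l) * xi j x + 2 * x k * F1 (nsq x) * xi i x * J j l := by
    rw [pd_mul, e8, e2]
    all_goals fun_prop
  rw [pd_add, e9, pd_mul, pd_F0, e6]
  · ring
  all_goals fun_prop

end Pool.Agent.H608R3.GBC
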