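import Pool.Agent.H608R3.GBC.Tensor

set_option autoImplicit false
set_option maxHeartbeats 4000000

open MeasureTheory Filter
open scoped Topology ContDiff

noncomputable section

namespace Pool.Agent.H608R3.GBC

theorem Jm_tr_mul : Jm.transpose * Jm = 1 := by
  ext i j
  rw [Matrix.mul_apply]
  simp only [Matrix.transpose_apply, Jm, Matrix.of_apply]
  rw [J_orth, Matrix.one_apply]
  rfl

theorem Jm_tr : Jm.transpose = -Jm := by
  ext i j
  simp only [Matrix.transpose_apply, Jm, Matrix.of_apply, Matrix.neg_apply]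
  exact J_anti j i

theorem Jm_sq : Jm * Jm = -1 := by
  have h := Jm_tr_mul
  rw [Jm_tr, Matrix.neg_mul] at h
  rw [← h, neg_neg]

theorem J_J (u : Fin 8 → ℝ) : Jm.mulVec (Jm.mulVec u) = -u := by
  rw [Matrix.mulVec_mulVec, Jm_sq, Matrix.neg_mulVec, Matrix.one_mulVec]

theorem J_dot_J (u v : Fin 8 → ℝ) : Jm.mulVec u ⬝ᵥ Jm.mulVec v = u ⬝ᵥ v := by
  rw [Matrix.dotProduct_mulVec, Matrix.vecMul_mulVec, Jm_tr_mul, Matrix.vecMul_one]

theorem J_dot (u v : Fin 8 → ℝ) : Jm.mulVec u ⬝ᵥ v = -(u ⬝ᵥ Jm.mulVec v) := by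
  have h := J_dot_J u (Jm.mulVec v)
  rw [J_J, dotProduct_neg] at h
  linarith

theorem J_dot_self (u : Fin 8 → ℝ) : u ⬝ᵥ Jm.mulVec u = 0 := by
  have h := J_dot u u
  rw [dotProduct_comm] at h
  linarith

theorem exists_unit_orth {m : ℕ} (hm : m < 8) (w : Fin m → Fin 8 → ℝ) :
    ∃ u : Fin 8 → ℝ, u ⬝ᵥ u = 1 ∧ ∀ i, w i ⬝ᵥ u = 0 := by
  have h : LinearMap.ker (Matrix.mulVecLin (Matrix.of w)) ≠ ⊥ := by
    apply LinearMap.ker_ne_bot_of_finrank_lt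
    simpa using hm
  obtain ⟨v, hv, hv0⟩ := (Submodule.ne_bot_iff _).1 h
  have hvv : 0 < v ⬝ᵥ v := by
    have h1 : v ⬝ᵥ v ≠ 0 := fun h => hv0 (dotProduct_self_eq_zero.1 h)
    have h2 : 0 ≤ v ⬝ᵥ v := by
      simp only [dotProduct]
      exact Finset.sum_nonneg fun i _ => mul_self_nonneg _
    exact lt_of_le_of_ne h2 (Ne.symm h1)
  refine ⟨(√(v ⬝ᵥ v))⁻¹ • v, ?_, fun i => ?_⟩
  · rw [smul_dotProduct, dotProduct_smul, smul_eq_mul, smul_eq_mul, ← mul_assoc, ← mul_inv,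
      Real.mul_self_sqrt hvv.le, inv_mul_cancel₀ hvv.ne']
  · rw [dotProduct_smul]
    have h2 : (Matrix.of w).mulVec v = 0 := by simpa using hv
    have h3 := congrFun h2 i
    have h4 : w i ⬝ᵥ v = 0 := h3
    rw [h4, smul_zero]

/-- a unitary frame whose first vector is a given unit vector -/
theorem exists_frame (u0 : Fin 8 → ℝ) (h0 : u0 ⬝ᵥ u0 = 1) :
    ∃ b : Fin 8 → Fin 8 → ℝ, b 0 = u0 ∧ b 1 = Jm.mulVec u0 ∧
      (∀ i j, b i ⬝ᵥ b j = dl i j) ∧ (∀ i j, b i ⬝ᵥ Jm.mulVec (b j) = J i j) := by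
  obtain ⟨u2, h2, h2o⟩ := exists_unit_orth (m := 2) (by norm_num) ![u0, Jm.mulVec u0]
  obtain ⟨u4, h4, h4o⟩ := exists_unit_orth (m := 4) (by norm_num)
    ![u0, Jm.mulVec u0, u2, Jm.mulVec u2]
  obtain ⟨u6, h6, h6o⟩ := exists_unit_orth (m := 6) (by norm_num)
    ![u0, Jm.mulVec u0, u2, Jm.mulVec u2, u4, Jm.mulVec u4]
  have a02 : u0 ⬝ᵥ u2 = 0 := h2o 0
  have b02 : Jm.mulVec u0 ⬝ᵥ u2 = 0 := h2o 1
  have a04 : u0 ⬝ᵥ u4 = 0 := h4o 0
  have b04 : Jm.mulVec u0 ⬝ᵥ u4 = 0 := h4o 1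
  have a24 : u2 ⬝ᵥ u4 = 0 := h4o 2
  have b24 : Jm.mulVec u2 ⬝ᵥ u4 = 0 := h4o 3
  have a06 : u0 ⬝ᵥ u6 = 0 := h6o 0
  have b06 : Jm.mulVec u0 ⬝ᵥ u6 = 0 := h6o 1
  have a26 : u2 ⬝ᵥ u6 = 0 := h6o 2
  have b26 : Jm.mulVec u2 ⬝ᵥ u6 = 0 := h6o 3
  have a46 : u4 ⬝ᵥ u6 = 0 := h6o 4
  have b46 : Jm.mulVec u4 ⬝ᵥ u6 = 0 := h6o 5
  -- the inner products of `u` and `J v`
  have c02 : u0 ⬝ᵥ Jm.mulVec u2 = 0 := by have := J_dot u0 u2; linarith
  have c04 : u0 ⬝ᵥ Jm.mulVec u4 = 0 := by have := J_dot u0 u4; linarith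
  have c24 : u2 ⬝ᵥ Jm.mulVec u4 = 0 := by have := J_dot u2 u4; linarith
  have c06 : u0 ⬝ᵥ Jm.mulVec u6 = 0 := by have := J_dot u0 u6; linarith
  have c26 : u2 ⬝ᵥ Jm.mulVec u6 = 0 := by have := J_dot u2 u6; linarith
  have c46 : u4 ⬝ᵥ Jm.mulVec u6 = 0 := by have := J_dot u4 u6; linarith
  have s0 := J_dot_self u0
  have s2 := J_dot_self u2
  have s4 := J_dot_self u4
  have s6 := J_dot_self u6
  have key : ∀ u v : Fin 8 → ℝ, v ⬝ᵥ u = u ⬝ᵥ v := fun u v => dotProduct_comm v u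
  refine ⟨![u0, Jm.mulVec u0, u2, Jm.mulVec u2, u4, Jm.mulVec u4, u6, Jm.mulVec u6], rfl, rfl,
    ?_, ?_⟩
  · intro i j
    fin_cases i <;> fin_cases j <;>
      simp only [Fin.zero_eta, Fin.mk_one, Fin.reduceFinMk, Matrix.cons_val_zero,
        Matrix.cons_val_one, Matrix.cons_val, dl] <;>
      simp only [J_dot_J, h0, h2, h4, h6, a02, b02, a04, b04, a24, b24, a06, b06, a26, b26, a46,
        b46, c02, c04, c24, c06, c26, c46, s0, s2, s4, s6, key u0 u2, key u0 u4, key u2 u4,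
        key u0 u6, key u2 u6, key u4 u6, key (Jm.mulVec u0) u2, key (Jm.mulVec u0) u4,
        key (Jm.mulVec u2) u4, key (Jm.mulVec u0) u6, key (Jm.mulVec u2) u6,
        key (Jm.mulVec u4) u6, key u0 (Jm.mulVec u2), key u0 (Jm.mulVec u4),
        key u2 (Jm.mulVec u4), key u0 (Jm.mulVec u6), key u2 (Jm.mulVec u6),
        key u4 (Jm.mulVec u6), key u0 (Jm.mulVec u0), key u2 (Jm.mulVec u2),
        key u4 (Jm.mulVec u4), key u6 (Jm.mulVec u6)] <;> simp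
  · intro i j
    fin_cases i <;> fin_cases j <;>
      simp only [Fin.zero_eta, Fin.mk_one, Fin.reduceFinMk, Matrix.cons_val_zero,
        Matrix.cons_val_one, Matrix.cons_val, J, J_J, dotProduct_neg] <;>
      simp only [J_dot_J, h0, h2, h4, h6, a02, b02, a04, b04, a24, b24, a06, b06, a26, b26, a46,
        b46, c02, c04, c24, c06, c26, c46, s0, s2, s4, s6, key u0 u2, key u0 u4, key u2 u4,
        key u0 u6, key u2 u6, key u4 u6, key (Jm.mulVec u0) u2, key (Jm.mulVec u0) u4,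
        key (Jm.mulVec u2) u4, key (Jm.mulVec u0) u6, key (Jm.mulVec u2) u6,
        key (Jm.mulVec u4) u6, key u0 (Jm.mulVec u2), key u0 (Jm.mulVec u4),
        key u2 (Jm.mulVec u4), key u0 (Jm.mulVec u6), key u2 (Jm.mulVec u6),
        key u4 (Jm.mulVec u6), key u0 (Jm.mulVec u0), key u2 (Jm.mulVec u2),
        key u4 (Jm.mulVec u4), key u6 (Jm.mulVec u6)] <;> simp [jz]

/-- At every point there is a `g`-orthonormal frame adapted to the symmetry. -/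
theorem exists_adapted (x : Pt 8) :
    ∃ (t : ℝ) (U : Matrix (Fin 8) (Fin 8) ℝ), 0 ≤ t ∧ t ^ 2 = nsq x ∧
      (∀ i, x i = t * U i 0) ∧ (∀ i, xi i x = t * U i 1) ∧ U.transpose * U = 1 ∧
      U.transpose * Jm * U = Jm := by
  obtain ⟨u0, h0, t, ht, hx⟩ : ∃ u0 : Fin 8 → ℝ, u0 ⬝ᵥ u0 = 1 ∧ ∃ t : ℝ, 0 ≤ t ∧
      ∀ i, x i = t * u0 i := by
    by_cases hx : nsq x = 0
    · refine ⟨Pi.single 0 1, by simp, 0, le_rfl, fun i => ?_⟩
      have h1 := (Finset.sum_eq_zero_iff_of_nonneg (fun i _ => sq_nonneg (x i))).1 hx i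
        (Finset.mem_univ i)
      rw [zero_mul]
      exact pow_eq_zero_iff (two_ne_zero) |>.1 h1
    · have hpos : 0 < nsq x := lt_of_le_of_ne (nsq_nonneg x) (Ne.symm hx)
      have hs : 0 < √(nsq x) := Real.sqrt_pos.2 hpos
      refine ⟨(√(nsq x))⁻¹ • xv x, ?_, √(nsq x), hs.le, fun i => ?_⟩
      · rw [smul_dotProduct, dotProduct_smul, smul_eq_mul, smul_eq_mul, ← mul_assoc, ← mul_inv,
          Real.mul_self_sqrt hpos.le, x_dot_x, inv_mul_cancel₀ hx]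
      · simp only [Pi.smul_apply, smul_eq_mul, xv]
        rw [← mul_assoc, mul_inv_cancel₀ hs.ne', one_mul]
  obtain ⟨b, hb0, hb1, hbo, hbJ⟩ := exists_frame u0 h0
  refine ⟨t, Matrix.of fun i a => b a i, ht, ?_, fun i => ?_, fun i => ?_, ?_, ?_⟩
  · have : xv x = t • u0 := funext hx
    rw [← x_dot_x, this, smul_dotProduct, dotProduct_smul, h0, smul_eq_mul, smul_eq_mul]
    ring
  · simp only [Matrix.of_apply]
    rw [hb0]
    exact hx i
  · simp only [Matrix.of_apply]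
    rw [hb1]
    simp only [xi, Matrix.mulVec, dotProduct, Jm, Matrix.of_apply]
    rw [Finset.mul_sum]
    refine Finset.sum_congr rfl fun j _ => ?_
    rw [hx j]
    ring
  · ext i j
    rw [Matrix.mul_apply, Matrix.one_apply]
    exact hbo i j
  · ext i j
    rw [Matrix.mul_assoc, Matrix.mul_apply]
    have h := hbJ i j
    simp only [dotProduct, Matrix.mulVec] at h
    simp only [Matrix.transpose_apply, Matrix.of_apply, Matrix.mul_apply]
    exact h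

end Pool.Agent.H608R3.GBC
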