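import Pool.Agent.H608R3.GBC.Dens

set_option autoImplicit false
set_option maxHeartbeats 4000000

open MeasureTheory Filter
open scoped Topology ContDiff Kronecker Nat

noncomputable section

namespace Pool.Agent.H608R3.GBC

theorem norm_sq_nsq (x : Pt 8) : ‖x‖ ^ 2 = nsq x := by
  rw [EuclideanSpace.norm_sq_eq]
  simp [nsq]

/-! ### the quadratic form -/

/-- the quadratic form of the metric -/
def Q8 (x : Pt 8) (v : Fin 8 → ℝ) : ℝ := ∑ i, ∑ j, g8 x i j * v i * v j

theorem Q8_eq (x : Pt 8) (v : Fin 8 → ℝ) :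
    Q8 x v = ∑ i, v i ^ 2 + F0 (nsq x) * (∑ i, xi i x * v i) ^ 2 := by
  unfold Q8
  have h : ∀ i j, g8 x i j * v i * v j = (if i = j then v i * v j else 0) +
      F0 (nsq x) * ((xi i x * v i) * (xi j x * v j)) := by
    intro i j
    simp only [g8, Matrix.of_apply]
    split_ifs <;> ring
  simp only [h, Finset.sum_add_distrib, Finset.sum_ite_eq, Finset.mem_univ, if_true,
    ← Finset.mul_sum]
  rw [sq (∑ i, xi i x * v i), Finset.sum_mul_sum]
  congr 1
  · exact Finset.sum_congr rfl fun i _ => by ring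
  · rw [Finset.mul_sum, Finset.mul_sum]
    exact Finset.sum_congr rfl fun i _ => by rw [Finset.mul_sum]

theorem Q8_ge (x : Pt 8) (v : Fin 8 → ℝ) : ∑ i, v i ^ 2 ≤ Q8 x v := by
  rw [Q8_eq]
  have := F0_pos (nsq x)
  nlinarith [sq_nonneg (∑ i, xi i x * v i)]

theorem F0_mul_le (s : ℝ) : F0 s * s ≤ 5 := by
  unfold F0
  rw [div_mul_eq_mul_div, div_le_iff₀ (by positivity)]
  nlinarith [sq_nonneg (s - 1)]

theorem sum_xi_sq (x : Pt 8) : ∑ i, xi i x ^ 2 = nsq x := by
  rw [← y_dot_y]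
  simp only [dotProduct, yv]
  exact Finset.sum_congr rfl fun i _ => by ring

theorem Q8_le (x : Pt 8) (v : Fin 8 → ℝ) : Q8 x v ≤ 6 * ∑ i, v i ^ 2 := by
  rw [Q8_eq]
  have h1 : (∑ i, xi i x * v i) ^ 2 ≤ (∑ i, xi i x ^ 2) * ∑ i, v i ^ 2 :=
    Finset.sum_mul_sq_le_sq_mul_sq _ _ _
  rw [sum_xi_sq] at h1
  have h2 := F0_mul_le (nsq x)
  have h3 := F0_pos (nsq x)
  have h4 : 0 ≤ ∑ i, v i ^ 2 := Finset.sum_nonneg fun _ _ => sq_nonneg _
  calc ∑ i, v i ^ 2 + F0 (nsq x) * (∑ i, xi i x * v i) ^ 2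
      ≤ ∑ i, v i ^ 2 + F0 (nsq x) * (nsq x * ∑ i, v i ^ 2) := by gcongr
    _ = (1 + F0 (nsq x) * nsq x) * ∑ i, v i ^ 2 := by ring
    _ ≤ 6 * ∑ i, v i ^ 2 := by
        apply mul_le_mul_of_nonneg_right _ h4
        linarith

theorem contDiff_g (i j : Fin 8) : ContDiff ℝ ∞ (fun x => g8 x i j) := by
  unfold g8
  simp only [Matrix.of_apply]
  exact contDiff_const.add (((contDiff_F0.comp contDiff_nsq).mul (contDiff_xi i)).mul
    (contDiff_xi j))

theorem isRiemannianMetric_g8 : IsRiemannianMetric g8 where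
  smooth := contDiff_g
  posDef x := by
    refine Matrix.PosDef.of_dotProduct_mulVec_pos ?_ fun v hv => ?_
    · ext i j
      simp only [Matrix.conjTranspose_apply, g8, Matrix.of_apply, star_trivial, eq_comm (a := j)]
      ring
    · have h1 : star v ⬝ᵥ (g8 x).mulVec v = Q8 x v := by
        simp only [star_trivial, dotProduct, Matrix.mulVec, Q8, Finset.mul_sum]
        refine Finset.sum_congr rfl fun i _ => Finset.sum_congr rfl fun j _ => by ring
      rw [h1]
      refine lt_of_lt_of_le ?_ (Q8_ge x v)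
      obtain ⟨i, hi⟩ := Function.ne_iff.1 hv
      exact Finset.sum_pos' (fun _ _ => sq_nonneg _) ⟨i, Finset.mem_univ i, by
        have : v i ≠ 0 := hi
        positivity⟩

/-! ### completeness -/

theorem norm_sq_sum (v : Pt 8) : ∑ i, v i ^ 2 = ‖v‖ ^ 2 := by
  rw [EuclideanSpace.norm_sq_eq]
  simp

theorem speed_eq (γ : ℝ → Pt 8) (t : ℝ) :
    (∑ i, ∑ j, g8 (γ t) i j * deriv γ t i * deriv γ t j) = Q8 (γ t) (fun i => deriv γ t i) := rfl

theorem continuous_Q (γ : ℝ → Pt 8) (hγ : ContDiff ℝ 1 γ) :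
    Continuous fun t => √(Q8 (γ t) (fun i => deriv γ t i)) := by
  have h1 : Continuous (deriv γ) := hγ.continuous_deriv le_rfl
  have h2 : ∀ i, Continuous fun t => deriv γ t i := fun i =>
    (EuclideanSpace.proj i : Pt 8 →L[ℝ] ℝ).continuous.comp h1
  apply Real.continuous_sqrt.comp
  unfold Q8
  refine continuous_finsetSum _ fun i _ => continuous_finsetSum _ fun j _ => ?_
  exact (((contDiff_g i j).continuous.comp hγ.continuous).mul (h2 i)).mul (h2 j)

theorem pathLength_ge (γ : ℝ → Pt 8) (hγ : ContDiff ℝ 1 γ) :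
    ‖γ 0 - γ 1‖ ≤ pathLength g8 γ := by
  have h1 : Continuous (deriv γ) := hγ.continuous_deriv le_rfl
  have h2 : ∫ t in (0 : ℝ)..1, deriv γ t = γ 1 - γ 0 :=
    intervalIntegral.integral_deriv_eq_sub
      (fun t _ => (hγ.differentiable (by simp)).differentiableAt)
      (h1.intervalIntegrable 0 1)
  rw [norm_sub_rev, ← h2]
  calc ‖∫ t in (0 : ℝ)..1, deriv γ t‖ ≤ ∫ t in (0 : ℝ)..1, ‖deriv γ t‖ :=
        intervalIntegral.norm_integral_le_integral_norm zero_le_one
    _ ≤ ∫ t in (0 : ℝ)..1, √(Q8 (γ t) (fun i => deriv γ t i)) := by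
        apply intervalIntegral.integral_mono_on zero_le_one (h1.norm.intervalIntegrable 0 1)
          ((continuous_Q γ hγ).intervalIntegrable 0 1)
        intro t _
        apply Real.le_sqrt_of_sq_le
        rw [← norm_sq_sum]
        exact Q8_ge _ _
    _ = pathLength g8 γ := rfl

theorem line_path (x y : Pt 8) : ContDiff ℝ 1 (fun t : ℝ => x + t • (y - x)) := by fun_prop

theorem deriv_line (x y : Pt 8) (t : ℝ) : deriv (fun t : ℝ => x + t • (y - x)) t = y - x := by
  have h : HasDerivAt (fun t : ℝ => x + t • (y - x)) (y - x) t := by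
    simpa using ((hasDerivAt_id t).smul_const (y - x)).const_add x
  exact h.deriv

theorem pathLength_line (x y : Pt 8) :
    pathLength g8 (fun t : ℝ => x + t • (y - x)) ≤ 3 * ‖x - y‖ := by
  have h : ∀ t : ℝ, √(Q8 (x + t • (y - x)) (fun i => (y - x) i)) ≤ 3 * ‖x - y‖ := by
    intro t
    rw [Real.sqrt_le_left (by positivity)]
    refine (Q8_le _ _).trans ?_
    rw [norm_sq_sum, norm_sub_rev]
    nlinarith [sq_nonneg ‖x - y‖]
  have h2 : pathLength g8 (fun t : ℝ => x + t • (y - x)) =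
      ∫ t in (0 : ℝ)..1, √(Q8 (x + t • (y - x)) (fun i => (y - x) i)) := by
    unfold pathLength
    congr 1
    funext t
    simp only [deriv_line]
    rfl
  rw [h2]
  have hc : Continuous fun t : ℝ => √(Q8 (x + t • (y - x)) (fun i => (y - x) i)) := by
    have := continuous_Q _ (line_path x y)
    simp only [deriv_line] at this
    exact this
  calc ∫ t in (0 : ℝ)..1, √(Q8 (x + t • (y - x)) (fun i => (y - x) i))
      ≤ ∫ _t in (0 : ℝ)..1, 3 * ‖x - y‖ := by
        apply intervalIntegral.integral_mono_on zero_le_one (hc.intervalIntegrable 0 1)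
          (by simp)
        intro t _
        exact h t
    _ = 3 * ‖x - y‖ := by simp

theorem pathLength_nonneg (γ : ℝ → Pt 8) : 0 ≤ pathLength g8 γ :=
  intervalIntegral.integral_nonneg zero_le_one fun _ _ => Real.sqrt_nonneg _

theorem riemDist_ge (x y : Pt 8) : ‖x - y‖ ≤ riemDist g8 x y := by
  refine le_csInf ⟨_, _, line_path x y, by simp, by simp, rfl⟩ ?_
  rintro L ⟨γ, hγ, h0, h1, rfl⟩
  rw [← h0, ← h1]
  exact pathLength_ge γ hγ

theorem riemDist_le (x y : Pt 8) : riemDist g8 x y ≤ 3 * ‖x - y‖ := by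
  have hb : BddBelow {L : ℝ | ∃ γ : ℝ → Pt 8, ContDiff ℝ 1 γ ∧ γ 0 = x ∧ γ 1 = y ∧
      L = pathLength g8 γ} := by
    refine ⟨0, ?_⟩
    rintro L ⟨γ, _, _, _, rfl⟩
    exact pathLength_nonneg γ
  exact (csInf_le hb ⟨_, line_path x y, by simp, by simp, rfl⟩).trans (pathLength_line x y)

theorem isComplete_g8 : IsCompleteMetric g8 := by
  intro u hu
  have hc : CauchySeq u := by
    rw [Metric.cauchySeq_iff]
    intro ε hε
    obtain ⟨N, hN⟩ := hu ε hε
    refine ⟨N, fun p hp q hq => ?_⟩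
    rw [dist_eq_norm]
    exact (riemDist_ge _ _).trans_lt (hN p hp q hq)
  obtain ⟨x, hx⟩ := cauchySeq_tendsto_of_complete hc
  refine ⟨x, ?_⟩
  have h1 : Tendsto (fun k => 3 * ‖u k - x‖) atTop (𝓝 0) := by
    have h2 : Tendsto (fun k => ‖u k - x‖) atTop (𝓝 0) :=
      tendsto_iff_norm_sub_tendsto_zero.1 hx
    simpa using h2.const_mul 3
  exact squeeze_zero (fun k => (norm_nonneg _).trans (riemDist_ge _ _))
    (fun k => riemDist_le _ _) h1

/-! ### the mass -/

theorem nsq_smul_sphere (r : ℝ) (w : Metric.sphere (0 : Pt 8) 1) :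
    nsq (r • (w : Pt 8)) = r ^ 2 := by
  rw [← norm_sq_nsq, norm_smul, norm_eq_of_mem_sphere w, Real.norm_eq_abs, mul_one, sq_abs]

def dens (r : ℝ) : ℝ :=
  9 * r * F0 (r ^ 2) * (5 * F0 (r ^ 2) + 4 * r ^ 2 * F1 (r ^ 2)) / (1 + F0 (r ^ 2) * r ^ 2)

theorem dens_eq {r : ℝ} (hr : 0 < r) (w : Metric.sphere (0 : Pt 8) 1) :
    massDensity g8 (r • (w : Pt 8)) = dens r := by
  have hw : ‖(w : Pt 8)‖ = 1 := norm_eq_of_mem_sphere w
  have h0 : r • (w : Pt 8) ≠ 0 := by
    rw [← norm_ne_zero_iff, norm_smul, hw, mul_one]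
    simpa using hr.ne'
  rw [massDensity_value _ h0, nsq_smul_sphere, norm_smul, hw, Real.norm_eq_abs, abs_of_pos hr,
    mul_one]
  rfl

theorem sphereArea_pos : 0 < sphereArea 8 := by
  unfold sphereArea
  apply ENNReal.toReal_pos
  · intro h
    have h1 : ((volume : Measure (Pt 8)).toSphere) = 0 := Measure.measure_univ_eq_zero.1 h
    exact Measure.toSphere_ne_zero _ h1
  · exact measure_ne_top _ _

theorem flux_eq {r : ℝ} (hr : 0 < r) : flux g8 r = r ^ 7 * dens r * sphereArea 8 := by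
  unfold flux
  have h : (∫ w, massDensity g8 (r • (w : Pt 8)) ∂((volume : Measure (Pt 8)).toSphere)) =
      ∫ _w : Metric.sphere (0 : Pt 8) 1, dens r ∂((volume : Measure (Pt 8)).toSphere) := by
    congr 1
    funext w
    exact dens_eq hr w
  rw [h, integral_const]
  simp only [sphereArea, Measure.real, smul_eq_mul]
  ring

theorem hasMass_g8 : HasGBCMass g8 (-(45 / 7)) := by
  unfold HasGBCMass
  have h1 : ∀ᶠ r : ℝ in atTop, massConst 8 * flux g8 r =
      (24 / 10080) * (90 * (50 * (1 / r ^ 4) - 30) /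
        ((1 / r ^ 4 + 1) ^ 2 * (1 / r ^ 4 + 1 + 10 * (1 / r ^ 2)))) := by
    filter_upwards [eventually_gt_atTop (0 : ℝ)] with r hr
    rw [flux_eq hr]
    unfold massConst
    have hA := sphereArea_pos.ne'
    have hf1 : ((8 - 4)! : ℕ) = 24 := rfl
    have hf2 : ((8 - 1)! : ℕ) = 5040 := rfl
    rw [hf1, hf2]
    unfold dens F0 F1
    have hr' := hr.ne'
    have p1 : (1 + (r ^ 2) ^ 2) ≠ 0 := by positivity
    have p2 : (1 + 10 / (1 + (r ^ 2) ^ 2) * r ^ 2) ≠ 0 := by positivity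
    have p3 : (1 / r ^ 4 + 1) ≠ 0 := by positivity
    have p4 : (1 / r ^ 4 + 1 + 10 * (1 / r ^ 2)) ≠ 0 := by positivity
    push_cast
    field_simp
    ring
  have h2 : Tendsto (fun r : ℝ => (24 / 10080) * (90 * (50 * (1 / r ^ 4) - 30) /
        ((1 / r ^ 4 + 1) ^ 2 * (1 / r ^ 4 + 1 + 10 * (1 / r ^ 2))))) atTop
      (𝓝 ((24 / 10080) * (90 * (50 * 0 - 30) / ((0 + 1) ^ 2 * (0 + 1 + 10 * 0))))) := by
    have t4 : Tendsto (fun r : ℝ => 1 / r ^ 4) atTop (𝓝 0) := by
      simpa using (tendsto_pow_neg_atTop (𝕜 := ℝ) (n := 4) (by norm_num)).congr fun r => by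
        simp [zpow_neg]
    have t2 : Tendsto (fun r : ℝ => 1 / r ^ 2) atTop (𝓝 0) := by
      simpa using (tendsto_pow_neg_atTop (𝕜 := ℝ) (n := 2) (by norm_num)).congr fun r => by
        simp [zpow_neg]
    refine Tendsto.const_mul _ (Tendsto.div ((((t4.const_mul 50).sub_const 30)).const_mul 90)
      (((t4.add_const 1).pow 2).mul ((t4.add_const 1).add (t2.const_mul 10))) (by norm_num))
  have h3 : (24 / 10080 : ℝ) * (90 * (50 * 0 - 30) / ((0 + 1) ^ 2 * (0 + 1 + 10 * 0))) =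
      -(45 / 7) := by norm_num
  rw [h3] at h2
  exact h2.congr' (h1.mono fun r hr => hr.symm)

end Pool.Agent.H608R3.GBC
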