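import Pool.Agent.H608R3.GBC.Scal

set_option autoImplicit false
set_option maxHeartbeats 4000000

open MeasureTheory Filter
open scoped Topology ContDiff Kronecker

noncomputable section

namespace Pool.Agent.H608R3.GBC

/-- a four tensor as a matrix on pairs -/
def mat4 (T : Fin 8 → Fin 8 → Fin 8 → Fin 8 → ℝ) :
    Matrix (Fin 8 × Fin 8) (Fin 8 × Fin 8) ℝ := Matrix.of fun p q => T p.1 p.2 q.1 q.2

theorem mat4_pb (B : Matrix (Fin 8) (Fin 8) ℝ) (T : Fin 8 → Fin 8 → Fin 8 → Fin 8 → ℝ) :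
    mat4 (pb B T) = (B ⊗ₖ B).transpose * (mat4 T * (B ⊗ₖ B)) := by
  ext ⟨a, b⟩ ⟨c, d⟩
  rw [Matrix.mul_apply]
  simp only [Matrix.mul_apply, mat4, Matrix.of_apply, pb, Matrix.transpose_apply,
    Matrix.kroneckerMap_apply, Fintype.sum_prod_type, Finset.mul_sum]
  refine Finset.sum_congr rfl fun i _ => Finset.sum_congr rfl fun k _ =>
    Finset.sum_congr rfl fun l _ => Finset.sum_congr rfl fun m _ => by ring

theorem pairR_trace (S T : Fin 8 → Fin 8 → Fin 8 → Fin 8 → ℝ) :
    pairR S T = Matrix.trace ((mat4 S).transpose * mat4 T) := by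
  have h : Matrix.trace ((mat4 S).transpose * mat4 T) =
      ∑ q : Fin 8 × Fin 8, ∑ p : Fin 8 × Fin 8, mat4 S p q * mat4 T p q := by
    simp only [Matrix.trace, Matrix.diag, Matrix.mul_apply, Matrix.transpose_apply]
  rw [h, Finset.sum_comm]
  simp only [mat4, Matrix.of_apply, Fintype.sum_prod_type, pairR]

/-- the adjointness of pulling back and pushing forward -/
theorem pairR_pb (B : Matrix (Fin 8) (Fin 8) ℝ) (S T : Fin 8 → Fin 8 → Fin 8 → Fin 8 → ℝ) :
    pairR (pb B.transpose S) T = pairR S (pb B T) := by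
  rw [pairR_trace, pairR_trace, mat4_pb, mat4_pb]
  have h : (B.transpose ⊗ₖ B.transpose) = (B ⊗ₖ B).transpose := by
    ext ⟨a, b⟩ ⟨c, d⟩
    simp [Matrix.kroneckerMap_apply]
  rw [h]
  simp only [Matrix.transpose_mul, Matrix.transpose_transpose]
  rw [Matrix.mul_assoc, Matrix.mul_assoc, Matrix.trace_mul_comm]
  simp only [Matrix.mul_assoc]

variable {x : Pt 8} {t y : ℝ} {B : Matrix (Fin 8) (Fin 8) ℝ}

theorem inv_entry (hA : Adapted x t y B) (i j : Fin 8) :
    (g8 x)⁻¹ i j = ∑ a, B i a * B j a := by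
  rw [hA.inv, Matrix.mul_apply]
  rfl

theorem riemUp_frame (hA : Adapted x t y B) (i k l m : Fin 8) :
    riemUp g8 i k l m x = pb B.transpose (TT x y) i k l m := by
  have h1 : riemUp g8 i k l m x =
      pb (g8 x)⁻¹.transpose (fun i k l m => riem g8 i k l m x) i k l m := by
    simp only [riemUp, pb, Matrix.transpose_apply]
  have h2 : mat4 (pb (g8 x)⁻¹.transpose (fun i k l m => riem g8 i k l m x)) =
      mat4 (pb B.transpose (TT x y)) := by
    have h3 : (TT x y) = pb B (fun i k l m => riem g8 i k l m x) := by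
      funext a b c d
      exact (riem_frame hA a b c d).symm
    rw [h3, mat4_pb, mat4_pb, mat4_pb]
    have h4 : ((g8 x)⁻¹.transpose ⊗ₖ (g8 x)⁻¹.transpose) =
        (B ⊗ₖ B) * (B.transpose ⊗ₖ B.transpose) := by
      rw [← Matrix.mul_kronecker_mul, ← hA.inv]
      congr 1 <;>
      · rw [hA.inv, Matrix.transpose_mul, Matrix.transpose_transpose]
    have h5 : (B.transpose ⊗ₖ B.transpose) = (B ⊗ₖ B).transpose := by
      ext ⟨a, b⟩ ⟨c, d⟩
      simp [Matrix.kroneckerMap_apply]
    rw [h4, h5]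
    simp only [Matrix.transpose_mul, Matrix.transpose_transpose, Matrix.mul_assoc]
  rw [h1]
  exact congrFun (congrFun h2 (i, k)) (l, m)

theorem rm_norm (hA : Adapted x t y B) :
    ∑ i, ∑ k, ∑ l, ∑ m, riem g8 i k l m x * riemUp g8 i k l m x =
      pairR (TT x y) (TT x y) := by
  have h : ∑ i, ∑ k, ∑ l, ∑ m, riem g8 i k l m x * riemUp g8 i k l m x =
      pairR (pb B.transpose (TT x y)) (fun i k l m => riem g8 i k l m x) := by
    simp only [riemUp_frame hA, pairR]
    refine Finset.sum_congr rfl fun i _ => Finset.sum_congr rfl fun k _ =>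
      Finset.sum_congr rfl fun l _ => Finset.sum_congr rfl fun m _ => by ring
  rw [h, pairR_pb]
  congr 1
  funext a b c d
  exact riem_frame hA a b c d

theorem ric_expand (hA : Adapted x t y B) (k m : Fin 8) :
    ric g8 k m x = ∑ i, ∑ l, ∑ a, B i a * B l a * riem g8 i k l m x := by
  simp only [ric, inv_entry hA, Finset.sum_mul]

theorem ric_frame (hA : Adapted x t y B) (b d : Fin 8) :
    bil B (Matrix.of fun k m => ric g8 k m x) b d = RR x y b d := by
  rw [← TT_ric]
  simp only [← riem_frame hA]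
  simp only [bil, pb, Matrix.of_apply, ric_expand hA, Finset.mul_sum, Finset.sum_mul]
  -- reorder the sums
  calc ∑ k, ∑ m, ∑ i, ∑ l, ∑ a, B k b * (B i a * B l a * riem g8 i k l m x) * B m d
      = ∑ k, ∑ m, ∑ i, ∑ a, ∑ l, B k b * (B i a * B l a * riem g8 i k l m x) * B m d :=
        Finset.sum_congr rfl fun k _ => Finset.sum_congr rfl fun m _ =>
          Finset.sum_congr rfl fun i _ => Finset.sum_comm
    _ = ∑ k, ∑ m, ∑ a, ∑ i, ∑ l, B k b * (B i a * B l a * riem g8 i k l m x) * B m d :=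
        Finset.sum_congr rfl fun k _ => Finset.sum_congr rfl fun m _ => Finset.sum_comm
    _ = ∑ k, ∑ a, ∑ m, ∑ i, ∑ l, B k b * (B i a * B l a * riem g8 i k l m x) * B m d :=
        Finset.sum_congr rfl fun k _ => Finset.sum_comm
    _ = ∑ a, ∑ k, ∑ m, ∑ i, ∑ l, B k b * (B i a * B l a * riem g8 i k l m x) * B m d :=
        Finset.sum_comm
    _ = ∑ a, ∑ k, ∑ i, ∑ m, ∑ l, B k b * (B i a * B l a * riem g8 i k l m x) * B m d :=
        Finset.sum_congr rfl fun a _ => Finset.sum_congr rfl fun k _ => Finset.sum_comm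
    _ = ∑ a, ∑ i, ∑ k, ∑ m, ∑ l, B k b * (B i a * B l a * riem g8 i k l m x) * B m d :=
        Finset.sum_congr rfl fun a _ => Finset.sum_comm
    _ = ∑ a, ∑ i, ∑ k, ∑ l, ∑ m, B k b * (B i a * B l a * riem g8 i k l m x) * B m d :=
        Finset.sum_congr rfl fun a _ => Finset.sum_congr rfl fun i _ =>
          Finset.sum_congr rfl fun k _ => Finset.sum_comm
    _ = _ := by
        refine Finset.sum_congr rfl fun a _ => Finset.sum_congr rfl fun i _ =>
          Finset.sum_congr rfl fun k _ => Finset.sum_congr rfl fun l _ =>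
          Finset.sum_congr rfl fun m _ => by ring

theorem bilM_eq (B A : Matrix (Fin 8) (Fin 8) ℝ) : bilM B A = B.transpose * (A * B) := by
  ext a c
  rw [Matrix.mul_apply]
  simp only [bilM, Matrix.of_apply, bil, Matrix.mul_apply, Matrix.transpose_apply,
    Finset.mul_sum]
  refine Finset.sum_congr rfl fun i _ => Finset.sum_congr rfl fun l _ => by ring

/-- the Ricci tensor as a matrix -/
def RicM (x : Pt 8) : Matrix (Fin 8) (Fin 8) ℝ := Matrix.of fun k m => ric g8 k m x

theorem RicM_frame (hA : Adapted x t y B) :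
    B.transpose * (RicM x * B) = Matrix.of (RR x y) := by
  rw [← bilM_eq]
  ext b d
  exact ric_frame hA b d

theorem scal_frame (hA : Adapted x t y B) : scal g8 x = ∑ b, RR x y b b := by
  have h : scal g8 x = Matrix.trace ((g8 x)⁻¹.transpose * RicM x) := by
    simp only [scal, Matrix.trace, Matrix.diag, Matrix.mul_apply, Matrix.transpose_apply, RicM,
      Matrix.of_apply]
    rw [Finset.sum_comm]
  have h2 : (g8 x)⁻¹.transpose = B * B.transpose := by
    rw [hA.inv, Matrix.transpose_mul, Matrix.transpose_transpose]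
  rw [h, h2, Matrix.mul_assoc, Matrix.trace_mul_comm, Matrix.mul_assoc, RicM_frame hA]
  rfl

theorem ric_norm (hA : Adapted x t y B) :
    ∑ k, ∑ m, ∑ a, ∑ b, (g8 x)⁻¹ k a * (g8 x)⁻¹ m b * ric g8 k m x * ric g8 a b x =
      ∑ b, ∑ d, RR x y b d * RR x y b d := by
  have h : ∑ k, ∑ m, ∑ a, ∑ b, (g8 x)⁻¹ k a * (g8 x)⁻¹ m b * ric g8 k m x * ric g8 a b x =
      Matrix.trace ((RicM x).transpose * ((g8 x)⁻¹ * (RicM x * (g8 x)⁻¹.transpose))) := by
    simp only [Matrix.trace, Matrix.diag, Matrix.mul_apply, Matrix.transpose_apply, RicM,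
      Matrix.of_apply, Finset.mul_sum]
    rw [Finset.sum_comm]
    refine Finset.sum_congr rfl fun i _ => Finset.sum_congr rfl fun k _ =>
      Finset.sum_congr rfl fun l _ => Finset.sum_congr rfl fun m _ => by ring
  have h2 : (g8 x)⁻¹.transpose = B * B.transpose := by
    rw [hA.inv, Matrix.transpose_mul, Matrix.transpose_transpose]
  have h3 := RicM_frame hA
  have h4 : (B.transpose * (RicM x * B)).transpose = (Matrix.of (RR x y)).transpose := by rw [h3]
  simp only [Matrix.transpose_mul, Matrix.transpose_transpose] at h4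
  rw [h, h2, hA.inv]
  have h5 : (RicM x).transpose * (B * B.transpose * (RicM x * (B * B.transpose))) =
      ((RicM x).transpose * B) * ((B.transpose * (RicM x * B)) * B.transpose) := by
    simp only [Matrix.mul_assoc]
  rw [h5, h3, Matrix.trace_mul_comm]
  have h6 : (Matrix.of (RR x y)) * B.transpose * ((RicM x).transpose * B) =
      (Matrix.of (RR x y)) * (B.transpose * (RicM x).transpose * B) := by
    simp only [Matrix.mul_assoc]
  rw [h6, h4, Matrix.trace_mul_comm]
  simp only [Matrix.trace, Matrix.diag, Matrix.mul_apply, Matrix.transpose_apply,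
    Matrix.of_apply]
  rw [Finset.sum_comm]

theorem L2_frame (hA : Adapted x t y B) :
    L2 g8 x = 72 * (cu x y * cq x + 4 * cs x y * cq x + 5 * cq x ^ 2 + 2 * cc x y ^ 2) := by
  unfold L2
  rw [rm_norm hA, ric_norm hA, scal_frame hA, TT_pair, RR_trace, RR_norm]
  ring

/-- the explicit value of the Gauss-Bonnet curvature -/
theorem L2_value (x : Pt 8) : L2 g8 x =
    7200 * (10 + 100 * nsq x + 96 * nsq x ^ 2 - 100 * nsq x ^ 3 + 86 * nsq x ^ 4) /
      ((1 + nsq x ^ 2) ^ 3 * (1 + 10 * nsq x + nsq x ^ 2) ^ 2) := by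
  obtain ⟨t, y, B, hA⟩ := exists_B x
  rw [L2_frame hA]
  have hy2 := hA.y_sq
  have hs := nsq_nonneg x
  set s := nsq x with hsd
  have hy : y ≠ 0 := hA.y_pos.ne'
  have h1 : (1 + s ^ 2) ≠ 0 := by positivity
  have h2 : (1 + 10 * s + s ^ 2) ≠ 0 := by positivity
  have hF0 : F0 s = 10 / (1 + s ^ 2) := rfl
  have hy3 : y ^ 2 = (1 + 10 * s + s ^ 2) / (1 + s ^ 2) := by
    rw [hy2, hF0]
    field_simp
    ring
  have hv : vv x = (1 + 10 * s + s ^ 2) / (1 + s ^ 2) := by
    rw [← hy3, hy2]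
    rfl
  have hc2 : cc x y ^ 2 = (F1 s * s + F0 s) ^ 2 / y ^ 2 := by
    unfold cc
    rw [div_pow]
  rw [hc2]
  unfold cu cs cq kap
  rw [← hsd, hv, hy3]
  unfold F0 F1 F2
  field_simp
  ring

theorem L2_pos (x : Pt 8) : 0 < L2 g8 x := by
  rw [L2_value]
  have hs := nsq_nonneg x
  set s := nsq x
  have h : 0 < 10 + 100 * s + 96 * s ^ 2 - 100 * s ^ 3 + 86 * s ^ 4 := by
    nlinarith [sq_nonneg s, sq_nonneg (s * (s - 50 / 86)), sq_nonneg (s ^ 2), hs]
  positivity

end Pool.Agent.H608R3.GBC
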