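import Pool.Agent.H608R3.GBC.PForm

set_option autoImplicit false
set_option maxHeartbeats 4000000

open MeasureTheory Filter
open scoped Topology ContDiff Kronecker

noncomputable section

namespace Pool.Agent.H608R3.GBC

theorem riem_anti1 (x : Pt 8) (i k l m : Fin 8) :
    riem g8 k i l m x = - riem g8 i k l m x := by
  rw [riem_g8, riem_g8]
  simp only [KN, WW, Om, Jm, Matrix.of_apply]
  rw [J_anti k i]
  ring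

theorem riem_anti2 (x : Pt 8) (i k l m : Fin 8) :
    riem g8 i k m l x = - riem g8 i k l m x := by
  rw [riem_g8, riem_g8]
  simp only [KN, WW, Om, Jm, Matrix.of_apply]
  rw [J_anti m l]
  ring

theorem mix_anti1 (x : Pt 8) (i k l m : Fin 8) :
    riemMix g8 k i l m x = - riemMix g8 i k l m x := by
  simp only [riemMix, riem_anti1 x i k, ← Finset.sum_neg_distrib]
  refine Finset.sum_congr rfl fun c _ => Finset.sum_congr rfl fun d _ => by ring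

theorem mix_anti2 (x : Pt 8) (i k l m : Fin 8) :
    riemMix g8 i k m l x = - riemMix g8 i k l m x := by
  simp only [riemMix, ← Finset.sum_neg_distrib]
  rw [Finset.sum_comm]
  refine Finset.sum_congr rfl fun c _ => Finset.sum_congr rfl fun d _ => ?_
  rw [riem_anti2 x i k c d]
  ring

theorem P_explicit (x : Pt 8) (s t l m : Fin 8) :
    P g8 s t l m x =
      1 / 2 * (∑ i₁, ∑ i₂, riemMix g8 i₁ i₂ i₁ i₂ x) *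
        ((g8 x)⁻¹ s l * (g8 x)⁻¹ t m - (g8 x)⁻¹ s m * (g8 x)⁻¹ t l) +
      (∑ i₁, ∑ i₂, riemMix g8 i₁ i₂ i₁ s x * (g8 x)⁻¹ i₂ m) * (g8 x)⁻¹ t l -
      (∑ i₁, ∑ i₂, riemMix g8 i₁ i₂ i₁ s x * (g8 x)⁻¹ i₂ l) * (g8 x)⁻¹ t m +
      (∑ i₁, ∑ i₂, riemMix g8 i₁ i₂ i₁ t x * (g8 x)⁻¹ i₂ l) * (g8 x)⁻¹ s m -
      (∑ i₁, ∑ i₂, riemMix g8 i₁ i₂ i₁ t x * (g8 x)⁻¹ i₂ m) * (g8 x)⁻¹ s l +
      ∑ i₁, ∑ i₂, riemMix g8 i₁ i₂ s t x * (g8 x)⁻¹ i₁ l * (g8 x)⁻¹ i₂ m := by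
  set G := (g8 x)⁻¹ with hG
  set M : Fin 8 → Fin 8 → Fin 8 → Fin 8 → ℝ := fun i k p q => riemMix g8 i k p q x with hM
  set E : Fin 8 → Fin 8 → ℝ := fun i₁ i₂ =>
    2 * (M i₁ i₂ i₁ s * (G t l * G i₂ m - G i₂ l * G t m) +
      M i₁ i₂ i₁ t * (G i₂ l * G s m - G s l * G i₂ m)) with hE
  set H : Fin 8 → Fin 8 → ℝ := fun i₁ i₂ => M i₁ i₂ s t * G i₁ l * G i₂ m with hH
  have key : ∀ i₁ i₂, ∑ j₁, ∑ j₂, ∑ j₃, ∑ j₄,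
      gdelta ![i₁, i₂, s, t] ![j₁, j₂, j₃, j₄] * M i₁ i₂ j₁ j₂ * G j₃ l * G j₄ m =
      2 * M i₁ i₂ i₁ i₂ * (G s l * G t m - G s m * G t l) + (E i₁ i₂ + E i₂ i₁) +
        2 * (H i₁ i₂ + H i₂ i₁) := by
    intro i₁ i₂
    have h1 := gdelta_sum i₁ i₂ s t (fun j₁ j₂ j₃ j₄ => M i₁ i₂ j₁ j₂ * G j₃ l * G j₄ m)
    have h2 : ∑ j₁, ∑ j₂, ∑ j₃, ∑ j₄,
      gdelta ![i₁, i₂, s, t] ![j₁, j₂, j₃, j₄] * M i₁ i₂ j₁ j₂ * G j₃ l * G j₄ m =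
      ∑ j₁, ∑ j₂, ∑ j₃, ∑ j₄, gdelta ![i₁, i₂, s, t] ![j₁, j₂, j₃, j₄] *
        (M i₁ i₂ j₁ j₂ * G j₃ l * G j₄ m) := by
      refine Finset.sum_congr rfl fun a _ => Finset.sum_congr rfl fun b _ =>
        Finset.sum_congr rfl fun c _ => Finset.sum_congr rfl fun d _ => by ring
    rw [h2, h1]
    simp only [hE, hH]
    have a1 : M i₁ i₂ i₂ i₁ = - M i₁ i₂ i₁ i₂ := mix_anti2 x _ _ _ _
    have a2 : M i₁ i₂ s i₁ = - M i₁ i₂ i₁ s := mix_anti2 x _ _ _ _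
    have a3 : M i₁ i₂ t i₁ = - M i₁ i₂ i₁ t := mix_anti2 x _ _ _ _
    have a4 : M i₁ i₂ s i₂ = - M i₁ i₂ i₂ s := mix_anti2 x _ _ _ _
    have a5 : M i₁ i₂ t i₂ = - M i₁ i₂ i₂ t := mix_anti2 x _ _ _ _
    have a6 : M i₁ i₂ t s = - M i₁ i₂ s t := mix_anti2 x _ _ _ _
    have b1 : M i₂ i₁ i₂ s = - M i₁ i₂ i₂ s := mix_anti1 x _ _ _ _
    have b2 : M i₂ i₁ i₂ t = - M i₁ i₂ i₂ t := mix_anti1 x _ _ _ _
    have b3 : M i₂ i₁ s t = - M i₁ i₂ s t := mix_anti1 x _ _ _ _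
    rw [a1, a2, a3, a4, a5, a6, b1, b2, b3]
    ring
  have hP : P g8 s t l m x = 1 / 4 * ∑ i₁, ∑ i₂,
      (2 * M i₁ i₂ i₁ i₂ * (G s l * G t m - G s m * G t l) + (E i₁ i₂ + E i₂ i₁) +
        2 * (H i₁ i₂ + H i₂ i₁)) := by
    unfold P
    congr 1
    refine Finset.sum_congr rfl fun i₁ _ => Finset.sum_congr rfl fun i₂ _ => ?_
    exact key i₁ i₂
  have hEc : ∑ i₁, ∑ i₂, E i₂ i₁ = ∑ i₁, ∑ i₂, E i₁ i₂ := Finset.sum_comm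
  have hHc : ∑ i₁, ∑ i₂, H i₂ i₁ = ∑ i₁, ∑ i₂, H i₁ i₂ := Finset.sum_comm
  have e1 : ∑ i₁, ∑ i₂, E i₁ i₂ =
      2 * ((∑ i₁, ∑ i₂, M i₁ i₂ i₁ s * G i₂ m) * G t l -
      (∑ i₁, ∑ i₂, M i₁ i₂ i₁ s * G i₂ l) * G t m +
      (∑ i₁, ∑ i₂, M i₁ i₂ i₁ t * G i₂ l) * G s m -
      (∑ i₁, ∑ i₂, M i₁ i₂ i₁ t * G i₂ m) * G s l) := by
    simp only [Finset.sum_mul, Finset.mul_sum, ← Finset.sum_sub_distrib,
      ← Finset.sum_add_distrib, hE]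
    refine Finset.sum_congr rfl fun a _ => Finset.sum_congr rfl fun b _ => by ring
  have e2 : ∑ i₁, ∑ i₂, 2 * M i₁ i₂ i₁ i₂ * (G s l * G t m - G s m * G t l) =
      2 * (∑ i₁, ∑ i₂, M i₁ i₂ i₁ i₂) * (G s l * G t m - G s m * G t l) := by
    simp only [Finset.sum_mul, Finset.mul_sum]
  rw [hP]
  simp only [Finset.sum_add_distrib, ← Finset.mul_sum]
  rw [hEc, hHc, e1, e2]
  simp only [hM, hH]
  ring

end Pool.Agent.H608R3.GBC
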