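import Pool.Agent.H608R3.GBC.Inv

set_option autoImplicit false
set_option maxHeartbeats 4000000

open MeasureTheory Filter
open scoped Topology ContDiff Kronecker

noncomputable section

namespace Pool.Agent.H608R3.GBC

theorem gdelta_sum (i1 i2 i3 i4 : Fin 8) (F : Fin 8 → Fin 8 → Fin 8 → Fin 8 → ℝ) :
    ∑ j1, ∑ j2, ∑ j3, ∑ j4, gdelta ![i1, i2, i3, i4] ![j1, j2, j3, j4] * F j1 j2 j3 j4 =
      F i1 i2 i3 i4 - F i1 i2 i4 i3 - F i1 i3 i2 i4 + F i1 i3 i4 i2 + F i1 i4 i2 i3 - F i1 i4 i3 i2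
      - F i2 i1 i3 i4 + F i2 i1 i4 i3 + F i2 i3 i1 i4 - F i2 i3 i4 i1 - F i2 i4 i1 i3
      + F i2 i4 i3 i1
      + F i3 i1 i2 i4 - F i3 i1 i4 i2 - F i3 i2 i1 i4 + F i3 i2 i4 i1 + F i3 i4 i1 i2
      - F i3 i4 i2 i1
      - F i4 i1 i2 i3 + F i4 i1 i3 i2 + F i4 i2 i1 i3 - F i4 i2 i3 i1 - F i4 i3 i1 i2
      + F i4 i3 i2 i1 := by
  have h : ∀ j1 j2 j3 j4 : Fin 8, gdelta ![i1, i2, i3, i4] ![j1, j2, j3, j4] * F j1 j2 j3 j4 =
      (if i1 = j1 then (if i2 = j2 then (if i3 = j3 then (if i4 = j4 then F j1 j2 j3 j4 else 0) else 0) else 0) else 0)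
      - (if i1 = j1 then (if i2 = j2 then (if i4 = j3 then (if i3 = j4 then F j1 j2 j3 j4 else 0) else 0) else 0) else 0)
      - (if i1 = j1 then (if i3 = j2 then (if i2 = j3 then (if i4 = j4 then F j1 j2 j3 j4 else 0) else 0) else 0) else 0)
      + (if i1 = j1 then (if i3 = j2 then (if i4 = j3 then (if i2 = j4 then F j1 j2 j3 j4 else 0) else 0) else 0) else 0)
      + (if i1 = j1 then (if i4 = j2 then (if i2 = j3 then (if i3 = j4 then F j1 j2 j3 j4 else 0) else 0) else 0) else 0)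
      - (if i1 = j1 then (if i4 = j2 then (if i3 = j3 then (if i2 = j4 then F j1 j2 j3 j4 else 0) else 0) else 0) else 0)
      - (if i2 = j1 then (if i1 = j2 then (if i3 = j3 then (if i4 = j4 then F j1 j2 j3 j4 else 0) else 0) else 0) else 0)
      + (if i2 = j1 then (if i1 = j2 then (if i4 = j3 then (if i3 = j4 then F j1 j2 j3 j4 else 0) else 0) else 0) else 0)
      + (if i2 = j1 then (if i3 = j2 then (if i1 = j3 then (if i4 = j4 then F j1 j2 j3 j4 else 0) else 0) else 0) else 0)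
      - (if i2 = j1 then (if i3 = j2 then (if i4 = j3 then (if i1 = j4 then F j1 j2 j3 j4 else 0) else 0) else 0) else 0)
      - (if i2 = j1 then (if i4 = j2 then (if i1 = j3 then (if i3 = j4 then F j1 j2 j3 j4 else 0) else 0) else 0) else 0)
      + (if i2 = j1 then (if i4 = j2 then (if i3 = j3 then (if i1 = j4 then F j1 j2 j3 j4 else 0) else 0) else 0) else 0)
      + (if i3 = j1 then (if i1 = j2 then (if i2 = j3 then (if i4 = j4 then F j1 j2 j3 j4 else 0) else 0) else 0) else 0)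
      - (if i3 = j1 then (if i1 = j2 then (if i4 = j3 then (if i2 = j4 then F j1 j2 j3 j4 else 0) else 0) else 0) else 0)
      - (if i3 = j1 then (if i2 = j2 then (if i1 = j3 then (if i4 = j4 then F j1 j2 j3 j4 else 0) else 0) else 0) else 0)
      + (if i3 = j1 then (if i2 = j2 then (if i4 = j3 then (if i1 = j4 then F j1 j2 j3 j4 else 0) else 0) else 0) else 0)
      + (if i3 = j1 then (if i4 = j2 then (if i1 = j3 then (if i2 = j4 then F j1 j2 j3 j4 else 0) else 0) else 0) else 0)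
      - (if i3 = j1 then (if i4 = j2 then (if i2 = j3 then (if i1 = j4 then F j1 j2 j3 j4 else 0) else 0) else 0) else 0)
      - (if i4 = j1 then (if i1 = j2 then (if i2 = j3 then (if i3 = j4 then F j1 j2 j3 j4 else 0) else 0) else 0) else 0)
      + (if i4 = j1 then (if i1 = j2 then (if i3 = j3 then (if i2 = j4 then F j1 j2 j3 j4 else 0) else 0) else 0) else 0)
      + (if i4 = j1 then (if i2 = j2 then (if i1 = j3 then (if i3 = j4 then F j1 j2 j3 j4 else 0) else 0) else 0) else 0)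
      - (if i4 = j1 then (if i2 = j2 then (if i3 = j3 then (if i1 = j4 then F j1 j2 j3 j4 else 0) else 0) else 0) else 0)
      - (if i4 = j1 then (if i3 = j2 then (if i1 = j3 then (if i2 = j4 then F j1 j2 j3 j4 else 0) else 0) else 0) else 0)
      + (if i4 = j1 then (if i3 = j2 then (if i2 = j3 then (if i1 = j4 then F j1 j2 j3 j4 else 0) else 0) else 0) else 0) := by
    intro j1 j2 j3 j4
    have hd : ∀ m : Matrix (Fin 4) (Fin 4) ℝ, m.det =
        m 0 0 * m 1 1 * m 2 2 * m 3 3 - m 0 0 * m 1 1 * m 3 2 * m 2 3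
        - m 0 0 * m 2 1 * m 1 2 * m 3 3 + m 0 0 * m 2 1 * m 3 2 * m 1 3
        + m 0 0 * m 3 1 * m 1 2 * m 2 3 - m 0 0 * m 3 1 * m 2 2 * m 1 3
        - m 1 0 * m 0 1 * m 2 2 * m 3 3 + m 1 0 * m 0 1 * m 3 2 * m 2 3
        + m 1 0 * m 2 1 * m 0 2 * m 3 3 - m 1 0 * m 2 1 * m 3 2 * m 0 3
        - m 1 0 * m 3 1 * m 0 2 * m 2 3 + m 1 0 * m 3 1 * m 2 2 * m 0 3
        + m 2 0 * m 0 1 * m 1 2 * m 3 3 - m 2 0 * m 0 1 * m 3 2 * m 1 3
        - m 2 0 * m 1 1 * m 0 2 * m 3 3 + m 2 0 * m 1 1 * m 3 2 * m 0 3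
        + m 2 0 * m 3 1 * m 0 2 * m 1 3 - m 2 0 * m 3 1 * m 1 2 * m 0 3
        - m 3 0 * m 0 1 * m 1 2 * m 2 3 + m 3 0 * m 0 1 * m 2 2 * m 1 3
        + m 3 0 * m 1 1 * m 0 2 * m 2 3 - m 3 0 * m 1 1 * m 2 2 * m 0 3
        - m 3 0 * m 2 1 * m 0 2 * m 1 3 + m 3 0 * m 2 1 * m 1 2 * m 0 3 := by
      intro m
      simp [Matrix.det_succ_row_zero, Fin.sum_univ_succ, Fin.succAbove, Matrix.submatrix]
      ring
    have key : ∀ (p q r s : Prop) [Decidable p] [Decidable q] [Decidable r] [Decidable s],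
        ((if p then (1 : ℝ) else 0) * (if q then 1 else 0) * (if r then 1 else 0) *
          (if s then 1 else 0)) * F j1 j2 j3 j4 =
        (if p then (if q then (if r then (if s then F j1 j2 j3 j4 else 0) else 0) else 0)
          else 0) := by
      intro p q r s _ _ _ _
      split_ifs <;> simp
    unfold gdelta
    rw [hd]
    set m : Matrix (Fin 4) (Fin 4) ℝ := Matrix.of fun a b : Fin 4 =>
      if ![i1, i2, i3, i4] a = ![j1, j2, j3, j4] b then (1 : ℝ) else 0 with hm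
    have e00 : m 0 0 = if i1 = j1 then (1 : ℝ) else 0 := rfl
    have e01 : m 0 1 = if i1 = j2 then (1 : ℝ) else 0 := rfl
    have e02 : m 0 2 = if i1 = j3 then (1 : ℝ) else 0 := rfl
    have e03 : m 0 3 = if i1 = j4 then (1 : ℝ) else 0 := rfl
    have e10 : m 1 0 = if i2 = j1 then (1 : ℝ) else 0 := rfl
    have e11 : m 1 1 = if i2 = j2 then (1 : ℝ) else 0 := rfl
    have e12 : m 1 2 = if i2 = j3 then (1 : ℝ) else 0 := rfl
    have e13 : m 1 3 = if i2 = j4 then (1 : ℝ) else 0 := rfl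
    have e20 : m 2 0 = if i3 = j1 then (1 : ℝ) else 0 := rfl
    have e21 : m 2 1 = if i3 = j2 then (1 : ℝ) else 0 := rfl
    have e22 : m 2 2 = if i3 = j3 then (1 : ℝ) else 0 := rfl
    have e23 : m 2 3 = if i3 = j4 then (1 : ℝ) else 0 := rfl
    have e30 : m 3 0 = if i4 = j1 then (1 : ℝ) else 0 := rfl
    have e31 : m 3 1 = if i4 = j2 then (1 : ℝ) else 0 := rfl
    have e32 : m 3 2 = if i4 = j3 then (1 : ℝ) else 0 := rfl
    have e33 : m 3 3 = if i4 = j4 then (1 : ℝ) else 0 := rfl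
    rw [e00, e01, e02, e03, e10, e11, e12, e13, e20, e21, e22, e23, e30, e31, e32, e33]
    simp only [add_mul, sub_mul, key]
  simp only [h, Finset.sum_add_distrib, Finset.sum_sub_distrib, Finset.sum_ite_eq,
    Finset.mem_univ, if_true, Finset.sum_ite_irrel, Finset.sum_const_zero]

end Pool.Agent.H608R3.GBC
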