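import Pool.Agent.H608R3.GBC.TT

set_option autoImplicit false
set_option maxHeartbeats 4000000

open MeasureTheory Filter
open scoped Topology ContDiff Kronecker

noncomputable section

namespace Pool.Agent.H608R3.GBC

/-! ### integer contractions -/

def pairZ (S T : Fin 8 → Fin 8 → Fin 8 → Fin 8 → ℤ) : ℤ :=
  ∑ a, ∑ b, ∑ c, ∑ d, S a b c d * T a b c d

theorem puu : pairZ TuZ TuZ = 4 := by decide +kernel
theorem pus : pairZ TuZ TsZ = 0 := by decide +kernel
theorem puq : pairZ TuZ TqZ = 0 := by decide +kernel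
theorem puc : pairZ TuZ TcZ = 0 := by decide +kernel
theorem pss : pairZ TsZ TsZ = 24 := by decide +kernel
theorem psq : pairZ TsZ TqZ = 0 := by decide +kernel
theorem psc : pairZ TsZ TcZ = 0 := by decide +kernel
theorem pqq : pairZ TqZ TqZ = 252 := by decide +kernel
theorem pqc : pairZ TqZ TcZ = 0 := by decide +kernel
theorem pcc : pairZ TcZ TcZ = 144 := by decide +kernel

theorem rcu : ∀ b d : Fin 8, ∑ a, TuZ a b a d = e0z b * e0z d + e1z b * e1z d := by
  decide +kernel
theorem rcs : ∀ b d : Fin 8, ∑ a, TsZ a b a d = hz b d + 6 * (e1z b * e1z d) := by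
  decide +kernel
theorem rcq : ∀ b d : Fin 8, ∑ a, TqZ a b a d = 3 * hz b d := by decide +kernel
theorem rcc : ∀ b d : Fin 8, ∑ a, TcZ a b a d = 0 := by decide +kernel

/-- real pairing -/
def pairR (S T : Fin 8 → Fin 8 → Fin 8 → Fin 8 → ℝ) : ℝ :=
  ∑ a, ∑ b, ∑ c, ∑ d, S a b c d * T a b c d

theorem pairR_cast (S T : Fin 8 → Fin 8 → Fin 8 → Fin 8 → ℤ) :
    pairR (fun a b c d => (S a b c d : ℝ)) (fun a b c d => (T a b c d : ℝ)) =
      (pairZ S T : ℝ) := by
  unfold pairR pairZ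
  push_cast
  rfl

theorem pairR_add_left (S S' T : Fin 8 → Fin 8 → Fin 8 → Fin 8 → ℝ) :
    pairR (fun a b c d => S a b c d + S' a b c d) T = pairR S T + pairR S' T := by
  simp only [pairR, add_mul, Finset.sum_add_distrib]

theorem pairR_smul_left (r : ℝ) (S T : Fin 8 → Fin 8 → Fin 8 → Fin 8 → ℝ) :
    pairR (fun a b c d => r * S a b c d) T = r * pairR S T := by
  simp only [pairR, Finset.mul_sum]
  refine Finset.sum_congr rfl fun i _ => Finset.sum_congr rfl fun k _ =>
    Finset.sum_congr rfl fun l _ => Finset.sum_congr rfl fun m _ => by ring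

theorem pairR_comm (S T : Fin 8 → Fin 8 → Fin 8 → Fin 8 → ℝ) : pairR S T = pairR T S := by
  simp only [pairR]
  refine Finset.sum_congr rfl fun i _ => Finset.sum_congr rfl fun k _ =>
    Finset.sum_congr rfl fun l _ => Finset.sum_congr rfl fun m _ => by ring

/-- linear combination of four tensors against a fifth -/
theorem pairR_comb (p q r s : ℝ) (S1 S2 S3 S4 T : Fin 8 → Fin 8 → Fin 8 → Fin 8 → ℝ) :
    pairR (fun a b c d => p * S1 a b c d + q * S2 a b c d + r * S3 a b c d + s * S4 a b c d) T =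
      p * pairR S1 T + q * pairR S2 T + r * pairR S3 T + s * pairR S4 T := by
  rw [pairR_add_left (fun a b c d => p * S1 a b c d + q * S2 a b c d + r * S3 a b c d)
    (fun a b c d => s * S4 a b c d),
    pairR_add_left (fun a b c d => p * S1 a b c d + q * S2 a b c d)
    (fun a b c d => r * S3 a b c d),
    pairR_add_left (fun a b c d => p * S1 a b c d)
    (fun a b c d => q * S2 a b c d), pairR_smul_left, pairR_smul_left, pairR_smul_left,
    pairR_smul_left]

theorem TT_pair (x : Pt 8) (y : ℝ) : pairR (TT x y) (TT x y) =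
    4 * cu x y ^ 2 + 24 * cs x y ^ 2 + 252 * cq x ^ 2 + 144 * cc x y ^ 2 := by
  have h : TT x y = fun a b c d => cu x y * (TuZ a b c d : ℝ) + cs x y * (TsZ a b c d : ℝ) +
    cq x * (TqZ a b c d : ℝ) + cc x y * (TcZ a b c d : ℝ) := rfl
  have hsu : pairZ TsZ TuZ = 0 := by
    have := pus
    rw [← this]; unfold pairZ; simp only [mul_comm]
  have hqu : pairZ TqZ TuZ = 0 := by
    have := puq
    rw [← this]; unfold pairZ; simp only [mul_comm]
  have hcu : pairZ TcZ TuZ = 0 := by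
    have := puc
    rw [← this]; unfold pairZ; simp only [mul_comm]
  have hqs : pairZ TqZ TsZ = 0 := by
    have := psq
    rw [← this]; unfold pairZ; simp only [mul_comm]
  have hcs : pairZ TcZ TsZ = 0 := by
    have := psc
    rw [← this]; unfold pairZ; simp only [mul_comm]
  have hcq : pairZ TcZ TqZ = 0 := by
    have := pqc
    rw [← this]; unfold pairZ; simp only [mul_comm]
  rw [h, pairR_comb]
  rw [pairR_comm (fun a b c d => (TuZ a b c d : ℝ)), pairR_comm (fun a b c d => (TsZ a b c d : ℝ)),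
    pairR_comm (fun a b c d => (TqZ a b c d : ℝ)), pairR_comm (fun a b c d => (TcZ a b c d : ℝ))]
  rw [pairR_comb, pairR_comb, pairR_comb, pairR_comb]
  simp only [pairR_cast, puu, pus, puq, puc, pss, psq, psc, pqq, pqc, pcc, hsu, hqu, hcu, hqs,
    hcs, hcq]
  push_cast
  ring

/-- the Ricci tensor in the frame -/
def RR (x : Pt 8) (y : ℝ) (b d : Fin 8) : ℝ :=
  cu x y * (e0 b * e0 d + e1 b * e1 d) + cs x y * (hh b d + 6 * (e1 b * e1 d)) +
    cq x * (3 * hh b d)

theorem TT_ric (x : Pt 8) (y : ℝ) (b d : Fin 8) : ∑ a, TT x y a b a d = RR x y b d := by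
  have h1 : ((∑ a, TuZ a b a d : ℤ) : ℝ) = ((e0z b * e0z d + e1z b * e1z d : ℤ) : ℝ) := by
    rw [rcu]
  have h2 : ((∑ a, TsZ a b a d : ℤ) : ℝ) = ((hz b d + 6 * (e1z b * e1z d) : ℤ) : ℝ) := by
    rw [rcs]
  have h3 : ((∑ a, TqZ a b a d : ℤ) : ℝ) = ((3 * hz b d : ℤ) : ℝ) := by rw [rcq]
  have h4 : ((∑ a, TcZ a b a d : ℤ) : ℝ) = ((0 : ℤ) : ℝ) := by rw [rcc]
  push_cast at h1 h2 h3 h4
  simp only [TT, Finset.sum_add_distrib, ← Finset.mul_sum]
  rw [h1, h2, h3, h4]
  simp only [RR, e0, e1, hh]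
  ring

theorem RR_diag (x : Pt 8) (y : ℝ) (b d : Fin 8) : RR x y b d =
    if b = d then (if b = 0 then cu x y else if b = 1 then cu x y + 6 * cs x y
      else cs x y + 3 * cq x) else 0 := by
  fin_cases b <;> fin_cases d <;> simp [RR, e0, e1, hh, e0z, e1z, hz] <;> ring

theorem RR_trace (x : Pt 8) (y : ℝ) : ∑ b, RR x y b b =
    2 * cu x y + 12 * cs x y + 18 * cq x := by
  simp only [RR_diag, Fin.sum_univ_eight]
  simp
  ring

theorem RR_norm (x : Pt 8) (y : ℝ) : ∑ b, ∑ d, RR x y b d * RR x y b d =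
    cu x y ^ 2 + (cu x y + 6 * cs x y) ^ 2 + 6 * (cs x y + 3 * cq x) ^ 2 := by
  simp only [RR_diag, Fin.sum_univ_eight]
  simp
  ring

end Pool.Agent.H608R3.GBC
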