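import Pool.Agent.H608R3.GBC.Contract

set_option autoImplicit false
set_option maxHeartbeats 4000000

open MeasureTheory Filter
open scoped Topology ContDiff Kronecker

noncomputable section

namespace Pool.Agent.H608R3.GBC

def e0 (a : Fin 8) : ℝ := (e0z a : ℝ)
def e1 (a : Fin 8) : ℝ := (e1z a : ℝ)
def hh (a b : Fin 8) : ℝ := (hz a b : ℝ)
def kk (a b : Fin 8) : ℝ := (kz a b : ℝ)
def oo (a b : Fin 8) : ℝ := e0 a * e1 b - e0 b * e1 a

theorem oo_eq (a b : Fin 8) : oo a b = (oz a b : ℝ) := by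
  simp only [oo, oz, e0, e1]
  push_cast
  ring

theorem dl_real (a b : Fin 8) : (if a = b then (1 : ℝ) else 0) =
    hh a b + e0 a * e0 b + e1 a * e1 b := by
  have h := dl_split a b
  have h2 : (((if a = b then (1 : ℤ) else 0) : ℤ) : ℝ) =
    ((hz a b + e0z a * e0z b + e1z a * e1z b : ℤ) : ℝ) := by rw [h]
  push_cast at h2
  exact h2

variable {x : Pt 8} {t y : ℝ} {B : Matrix (Fin 8) (Fin 8) ℝ}

theorem bil_D (hA : Adapted x t y B) (a b : Fin 8) :
    bil B Dm a b = hh a b + e0 a * e0 b + e1 a * e1 b / y ^ 2 := by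
  rw [hA.D, dl_real]
  by_cases ha : a = 1 <;> by_cases hb : b = 1
  · subst ha
    subst hb
    simp [hh, e0, e1, hz, e0z, e1z]
    ring
  · subst ha
    have := (hz_one 1 b (Or.inl rfl)).1
    simp [hh, e0, e1, this, e0z, e1z, hb]
  · subst hb
    have := (hz_one a 1 (Or.inr rfl)).1
    simp [hh, e0, e1, this, e0z, e1z, ha]
  · simp [hh, e0, e1, e0z, e1z, ha, hb]

theorem bil_J (hA : Adapted x t y B) (a b : Fin 8) :
    bil B Jm a b = kk a b - oo a b / y := by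
  rw [hA.J, oo_eq]
  have h : J a b = kk a b - (oz a b : ℝ) := by
    have h1 := j_split a b
    unfold J kk
    rw [h1]
    push_cast
    ring
  rw [h]
  by_cases ha : a = 1 <;> by_cases hb : b = 1
  · subst ha
    subst hb
    simp [kk, kz, oz, e0z, e1z]
  · subst ha
    have := (hz_one 1 b (Or.inl rfl)).2
    simp [kk, this, oz, e0z, e1z, hb]
    split_ifs <;> ring
  · subst hb
    have := (hz_one a 1 (Or.inr rfl)).2
    simp [kk, this, oz, e0z, e1z, ha]
    split_ifs <;> ring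
  · simp [ha, hb, oz, e1z]

theorem bil_rank (B : Matrix (Fin 8) (Fin 8) ℝ) (u w : Fin 8 → ℝ) (a b : Fin 8) :
    bil B (Matrix.of fun i j => u i * w j) a b = (∑ i, u i * B i a) * (∑ j, w j * B j b) := by
  simp only [bil, Matrix.of_apply, Finset.sum_mul_sum]
  refine Finset.sum_congr rfl fun i _ => Finset.sum_congr rfl fun l _ => by ring

theorem X_val (hA : Adapted x t y B) (a : Fin 8) : ∑ i, x i * B i a = t * e0 a := by
  rw [hA.X]
  simp [e0, e0z]

theorem Y_val (hA : Adapted x t y B) (a : Fin 8) : ∑ i, xi i x * B i a = t / y * e1 a := by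
  rw [hA.Y]
  simp [e1, e1z]

theorem bil_X (hA : Adapted x t y B) (a b : Fin 8) :
    bil B (Xm x) a b = t ^ 2 * (e0 a * e0 b) := by
  unfold Xm
  rw [bil_rank B (fun i => x i) (fun i => x i), X_val hA, X_val hA]
  ring

theorem bil_Y (hA : Adapted x t y B) (a b : Fin 8) :
    bil B (Ym x) a b = t ^ 2 / y ^ 2 * (e1 a * e1 b) := by
  unfold Ym
  rw [bil_rank B (fun i => xi i x) (fun i => xi i x), Y_val hA, Y_val hA]
  ring

theorem bil_O (hA : Adapted x t y B) (a b : Fin 8) :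
    bil B (Om x) a b = t ^ 2 / y * oo a b := by
  have h : bil B (Om x) a b = bil B (Matrix.of fun i j => x i * xi j x) a b -
      bil B (Matrix.of fun i j => xi i x * x j) a b := by
    simp only [bil, Om, Matrix.of_apply]
    rw [← Finset.sum_sub_distrib]
    refine Finset.sum_congr rfl fun i _ => ?_
    rw [← Finset.sum_sub_distrib]
    refine Finset.sum_congr rfl fun j _ => by ring
  rw [h, bil_rank B (fun i => x i) (fun i => xi i x), bil_rank B (fun i => xi i x) (fun i => x i),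
    Y_val hA, Y_val hA, X_val hA, X_val hA]
  unfold oo
  ring

def cu (x : Pt 8) (y : ℝ) : ℝ :=
  ((F0 (nsq x) ^ 2 - F1 (nsq x)) * nsq x + (kap x - 2 * F2 (nsq x)) * nsq x ^ 2 -
    6 * F1 (nsq x) * nsq x - 3 * F0 (nsq x)) / y ^ 2
def cs (x : Pt 8) (y : ℝ) : ℝ := (F0 (nsq x) ^ 2 - F1 (nsq x)) * nsq x / y ^ 2
def cq (x : Pt 8) : ℝ := - F0 (nsq x)
def cc (x : Pt 8) (y : ℝ) : ℝ := (F1 (nsq x) * nsq x + F0 (nsq x)) / y

/-- the curvature tensor in the adapted frame -/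
def TT (x : Pt 8) (y : ℝ) (a b c d : Fin 8) : ℝ :=
  cu x y * (TuZ a b c d : ℝ) + cs x y * (TsZ a b c d : ℝ) + cq x * (TqZ a b c d : ℝ) +
    cc x y * (TcZ a b c d : ℝ)

theorem riem_frame (hA : Adapted x t y B) (a b c d : Fin 8) :
    pb B (fun i k l m => riem g8 i k l m x) a b c d = TT x y a b c d := by
  have h : (fun i k l m => riem g8 i k l m x) = fun i k l m =>
      (((((((F0 (nsq x) ^ 2 - F1 (nsq x)) * KN Dm (Ym x) i k l m +
      (kap x - 2 * F2 (nsq x)) * KN (Xm x) (Ym x) i k l m) +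
      F1 (nsq x) * KN (Om x) Jm i k l m) + (2 * F1 (nsq x)) * WW (Om x) Jm i k l m) +
      (2 * F1 (nsq x)) * WW Jm (Om x) i k l m) +
      (- F0 (nsq x) / 2) * KN Jm Jm i k l m) + (- 2 * F0 (nsq x)) * WW Jm Jm i k l m) := by
    funext i k l m
    rw [riem_g8]
    ring
  rw [h]
  rw [pb_add B (fun i k l m => ((((((F0 (nsq x) ^ 2 - F1 (nsq x)) * KN Dm (Ym x) i k l m +
      (kap x - 2 * F2 (nsq x)) * KN (Xm x) (Ym x) i k l m) +
      F1 (nsq x) * KN (Om x) Jm i k l m) + (2 * F1 (nsq x)) * WW (Om x) Jm i k l m) +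
      (2 * F1 (nsq x)) * WW Jm (Om x) i k l m) +
      (- F0 (nsq x) / 2) * KN Jm Jm i k l m)),
    pb_add B (fun i k l m => (((((F0 (nsq x) ^ 2 - F1 (nsq x)) * KN Dm (Ym x) i k l m +
      (kap x - 2 * F2 (nsq x)) * KN (Xm x) (Ym x) i k l m) +
      F1 (nsq x) * KN (Om x) Jm i k l m) + (2 * F1 (nsq x)) * WW (Om x) Jm i k l m) +
      (2 * F1 (nsq x)) * WW Jm (Om x) i k l m)),
    pb_add B (fun i k l m => ((((F0 (nsq x) ^ 2 - F1 (nsq x)) * KN Dm (Ym x) i k l m +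
      (kap x - 2 * F2 (nsq x)) * KN (Xm x) (Ym x) i k l m) +
      F1 (nsq x) * KN (Om x) Jm i k l m) + (2 * F1 (nsq x)) * WW (Om x) Jm i k l m)),
    pb_add B (fun i k l m => (((F0 (nsq x) ^ 2 - F1 (nsq x)) * KN Dm (Ym x) i k l m +
      (kap x - 2 * F2 (nsq x)) * KN (Xm x) (Ym x) i k l m) +
      F1 (nsq x) * KN (Om x) Jm i k l m)),
    pb_add B (fun i k l m => ((F0 (nsq x) ^ 2 - F1 (nsq x)) * KN Dm (Ym x) i k l m +
      (kap x - 2 * F2 (nsq x)) * KN (Xm x) (Ym x) i k l m)),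
    pb_add B (fun i k l m => ((F0 (nsq x) ^ 2 - F1 (nsq x)) * KN Dm (Ym x) i k l m)),
    pb_smul, pb_smul, pb_smul, pb_smul, pb_smul, pb_smul, pb_smul, pb_KN, pb_KN, pb_KN, pb_KN,
    pb_WW, pb_WW, pb_WW]
  simp only [KN, WW, bilM, Matrix.of_apply, bil_D hA, bil_J hA, bil_X hA, bil_Y hA, bil_O hA]
  simp only [TT, TuZ, TsZ, TqZ, TcZ, cu, cs, cq, cc]
  push_cast
  simp only [← oo_eq]
  have e0' : ∀ a, (e0z a : ℝ) = e0 a := fun _ => rfl
  have e1' : ∀ a, (e1z a : ℝ) = e1 a := fun _ => rfl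
  have h' : ∀ a b, (hz a b : ℝ) = hh a b := fun _ _ => rfl
  have k' : ∀ a b, (kz a b : ℝ) = kk a b := fun _ _ => rfl
  simp only [e1', h', k', ← hA.t_sq]
  have hy := hA.y_pos.ne'
  unfold oo
  field_simp
  ring

end Pool.Agent.H608R3.GBC
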