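import Pool.Agent.H608R3.GBC.Deriv

set_option autoImplicit false
set_option maxHeartbeats 4000000

open MeasureTheory Filter
open scoped Topology ContDiff

noncomputable section

namespace Pool.Agent.H608R3.GBC

/-- Kulkarni-Nomizu type product of two matrices -/
def KN {m : ℕ} (A B : Matrix (Fin m) (Fin m) ℝ) (i k l p : Fin m) : ℝ :=
  A i l * B k p + A k p * B i l - A i p * B k l - A k l * B i p

def WW {m : ℕ} (A B : Matrix (Fin m) (Fin m) ℝ) (i k l p : Fin m) : ℝ := A i k * B l p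

def dl (i j : Fin 8) : ℝ := if i = j then 1 else 0

theorem dl_comm (i j : Fin 8) : dl i j = dl j i := by
  unfold dl
  simp only [eq_comm]

theorem jz_anti : ∀ i j : Fin 8, jz i j = - jz j i := by decide

theorem jz_orth : ∀ i j : Fin 8, ∑ a, jz a i * jz a j = if i = j then 1 else 0 := by decide

theorem J_anti (i j : Fin 8) : J i j = - J j i := by
  unfold J
  rw [jz_anti i j]
  push_cast
  ring

theorem J_orth (i j : Fin 8) : ∑ a, J a i * J a j = dl i j := by
  have h := jz_orth i j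
  unfold J dl
  have h2 : ((∑ a, jz a i * jz a j : ℤ) : ℝ) = ((if i = j then 1 else 0 : ℤ) : ℝ) := by rw [h]
  push_cast at h2
  exact h2

/-- the position vector as a plain function -/
def xv (x : Pt 8) : Fin 8 → ℝ := fun i => x i
def yv (x : Pt 8) : Fin 8 → ℝ := fun i => xi i x
def Jc (k : Fin 8) : Fin 8 → ℝ := fun a => J a k

theorem Jc_dot (k l : Fin 8) : Jc k ⬝ᵥ Jc l = dl k l := J_orth k l

theorem yv_eq (x : Pt 8) : yv x = ∑ j, x j • Jc j := by
  funext i
  simp only [yv, xi, Jc, Finset.sum_apply, Pi.smul_apply, smul_eq_mul]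
  exact Finset.sum_congr rfl fun j _ => by ring

theorem y_dot_Jc (x : Pt 8) (k : Fin 8) : yv x ⬝ᵥ Jc k = x k := by
  rw [yv_eq, sum_dotProduct]
  simp only [smul_dotProduct, Jc_dot, dl, smul_eq_mul, mul_ite, mul_one, mul_zero]
  simp

theorem x_dot_Jc (x : Pt 8) (k : Fin 8) : xv x ⬝ᵥ Jc k = - xi k x := by
  simp only [dotProduct, xv, Jc, xi]
  rw [← Finset.sum_neg_distrib]
  refine Finset.sum_congr rfl fun a _ => ?_
  rw [J_anti a k]
  ring

theorem x_dot_x (x : Pt 8) : xv x ⬝ᵥ xv x = nsq x := by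
  simp only [dotProduct, xv, nsq]
  exact Finset.sum_congr rfl fun a _ => by ring

theorem y_dot_y (x : Pt 8) : yv x ⬝ᵥ yv x = nsq x := by
  rw [yv_eq x, dotProduct_sum, ← yv_eq]
  simp only [dotProduct_smul, y_dot_Jc, smul_eq_mul, nsq]
  exact Finset.sum_congr rfl fun a _ => by ring

theorem x_dot_y (x : Pt 8) : xv x ⬝ᵥ yv x = 0 := by
  have h : xv x ⬝ᵥ yv x = - (xv x ⬝ᵥ yv x) := by
    conv_lhs => rw [yv_eq x, dotProduct_sum]
    simp only [dotProduct_smul, x_dot_Jc, smul_eq_mul]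
    simp only [dotProduct, xv, yv]
    rw [← Finset.sum_neg_distrib]
    exact Finset.sum_congr rfl fun a _ => by ring
  linarith

theorem nsq_nonneg (x : Pt 8) : 0 ≤ nsq x := Finset.sum_nonneg fun _ _ => sq_nonneg _

theorem F0_pos (s : ℝ) : 0 < F0 s := by
  unfold F0
  positivity

/-- `v = 1 + φ ρ` -/
def vv (x : Pt 8) : ℝ := 1 + F0 (nsq x) * nsq x

theorem vv_pos (x : Pt 8) : 0 < vv x := by
  have h1 := F0_pos (nsq x)
  have h2 := nsq_nonneg x
  unfold vv
  positivity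

theorem g8_eq (x : Pt 8) : g8 x = 1 + F0 (nsq x) • Matrix.vecMulVec (yv x) (yv x) := by
  ext i j
  simp only [g8, Matrix.of_apply, Matrix.add_apply, Matrix.one_apply, Matrix.smul_apply,
    Matrix.vecMulVec_apply, yv, smul_eq_mul]
  ring

theorem g8_inv (x : Pt 8) :
    (g8 x)⁻¹ = 1 - (F0 (nsq x) / vv x) • Matrix.vecMulVec (yv x) (yv x) := by
  have hv := (vv_pos x).ne'
  refine Matrix.inv_eq_right_inv ?_
  rw [g8_eq]
  rw [Matrix.add_mul, Matrix.mul_sub, Matrix.mul_sub, Matrix.one_mul, Matrix.one_mul,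
    Matrix.mul_one, Matrix.smul_mul, Matrix.mul_smul, Matrix.vecMulVec_mul_vecMulVec, y_dot_y]
  ext i j
  simp only [Matrix.add_apply, Matrix.sub_apply, Matrix.one_apply, Matrix.smul_apply,
    Matrix.vecMulVec_apply, smul_eq_mul, Pi.smul_apply, MulOpposite.smul_eq_mul_unop,
    MulOpposite.unop_op]
  have : vv x = 1 + F0 (nsq x) * nsq x := rfl
  field_simp
  rw [this]
  ring

/-- contraction with the inverse metric -/
theorem inv_contract (x : Pt 8) (U V : Fin 8 → ℝ) :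
    ∑ a, ∑ b, (g8 x)⁻¹ a b * (U a * V b) =
      U ⬝ᵥ V - F0 (nsq x) / vv x * ((yv x ⬝ᵥ U) * (yv x ⬝ᵥ V)) := by
  rw [g8_inv]
  simp only [Matrix.sub_apply, Matrix.one_apply, Matrix.smul_apply, Matrix.vecMulVec_apply,
    smul_eq_mul, sub_mul, Finset.sum_sub_distrib, ite_mul, one_mul, zero_mul, Finset.sum_ite_eq,
    Finset.mem_univ, if_true]
  congr 1
  simp only [dotProduct]
  rw [Finset.sum_mul_sum, Finset.mul_sum]
  refine Finset.sum_congr rfl fun a _ => ?_
  rw [Finset.mul_sum]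
  exact Finset.sum_congr rfl fun b _ => by ring

theorem chr_g8 (a k l : Fin 8) (x : Pt 8) :
    chr g8 a k l x =
      ((F1 (nsq x) * (x k * xi l x + x l * xi k x)) • yv x +
        (-(F1 (nsq x) * (xi k x * xi l x))) • xv x +
        (F0 (nsq x) * xi l x) • Jc k + (F0 (nsq x) * xi k x) • Jc l) a := by
  unfold chr
  rw [pd_g, pd_g, pd_g]
  simp only [Pi.add_apply, Pi.smul_apply, smul_eq_mul, yv, xv, Jc]
  rw [J_anti l k, J_anti k a, J_anti l a]
  ring

def kap (x : Pt 8) : ℝ :=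
  (F1 (nsq x) ^ 2 * nsq x + 2 * F1 (nsq x) * F0 (nsq x) - F0 (nsq x) ^ 3) / vv x

def Ym (x : Pt 8) : Matrix (Fin 8) (Fin 8) ℝ := Matrix.of fun i j => xi i x * xi j x
def Xm (x : Pt 8) : Matrix (Fin 8) (Fin 8) ℝ := Matrix.of fun i j => x i * x j
def Om (x : Pt 8) : Matrix (Fin 8) (Fin 8) ℝ := Matrix.of fun i j => x i * xi j x - x j * xi i x
def Jm : Matrix (Fin 8) (Fin 8) ℝ := Matrix.of J
def Dm : Matrix (Fin 8) (Fin 8) ℝ := Matrix.of dl

theorem quad_term (x : Pt 8) (k l i m : Fin 8) :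
    ∑ a, ∑ b, (g8 x)⁻¹ a b * (chr g8 a k l x * chr g8 b i m x) =
      kap x * ((x k * xi l x + x l * xi k x) * (x i * xi m x + x m * xi i x)) +
      (F1 (nsq x) ^ 2 * nsq x + 4 * F1 (nsq x) * F0 (nsq x)) *
        (xi k x * xi l x * xi i x * xi m x) +
      F0 (nsq x) ^ 2 * (xi l x * xi m x * dl k i + xi l x * xi i x * dl k m +
        xi k x * xi m x * dl l i + xi k x * xi i x * dl l m) := by
  simp only [chr_g8]
  rw [inv_contract]
  simp only [dotProduct_add, add_dotProduct, smul_dotProduct, dotProduct_smul, smul_eq_mul,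
    Jc_dot, y_dot_Jc, x_dot_Jc, x_dot_x, y_dot_y, x_dot_y, dotProduct_comm (Jc _) (yv x),
    dotProduct_comm (Jc _) (xv x), dotProduct_comm (yv x) (xv x)]
  have hv := (vv_pos x).ne'
  have hvv : vv x = 1 + F0 (nsq x) * nsq x := rfl
  unfold kap
  field_simp
  rw [hvv]
  ring

theorem riem_g8 (x : Pt 8) (i k l m : Fin 8) :
    riem g8 i k l m x =
      (F0 (nsq x) ^ 2 - F1 (nsq x)) * KN Dm (Ym x) i k l m +
      (kap x - 2 * F2 (nsq x)) * KN (Xm x) (Ym x) i k l m +
      F1 (nsq x) * (KN (Om x) Jm i k l m + 2 * WW (Om x) Jm i k l m + 2 * WW Jm (Om x) i k l m) -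
      F0 (nsq x) * (KN Jm Jm i k l m / 2 + 2 * WW Jm Jm i k l m) := by
  unfold riem
  have h : ∑ a, ∑ b, (g8 x)⁻¹ a b *
      (chr g8 a k l x * chr g8 b i m x - chr g8 a k m x * chr g8 b i l x) =
      (∑ a, ∑ b, (g8 x)⁻¹ a b * (chr g8 a k l x * chr g8 b i m x)) -
      (∑ a, ∑ b, (g8 x)⁻¹ a b * (chr g8 a k m x * chr g8 b i l x)) := by
    rw [← Finset.sum_sub_distrib]
    refine Finset.sum_congr rfl fun a _ => ?_
    rw [← Finset.sum_sub_distrib]
    exact Finset.sum_congr rfl fun b _ => by ring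
  rw [h, quad_term, quad_term, pd_pd_g, pd_pd_g, pd_pd_g, pd_pd_g]
  have e1 : (if k = l then (1 : ℝ) else 0) = dl k l := rfl
  have e2 : (if i = m then (1 : ℝ) else 0) = dl i m := rfl
  have e3 : (if k = m then (1 : ℝ) else 0) = dl k m := rfl
  have e4 : (if i = l then (1 : ℝ) else 0) = dl i l := rfl
  rw [e1, e2, e3, e4]
  simp only [KN, WW, Dm, Ym, Xm, Om, Jm, Matrix.of_apply]
  rw [dl_comm l i, dl_comm m i, dl_comm m l]
  have j1 := J_anti k i
  have j2 := J_anti l i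
  have j3 := J_anti m i
  have j4 := J_anti l k
  have j5 := J_anti m k
  have j6 := J_anti m l
  simp only [j1, j2, j3, j4, j5, j6]
  ring

end Pool.Agent.H608R3.GBC
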